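import Pool.Agent.H891R2.Jones.Diagram

set_option autoImplicit false

/-!
# Reidemeister moves and finite type invariants of links

Oriented link diagrams with marked points are taken from `Pool.Agent.H891R2.Jones.Diagram`
(`Crossing`, `Diagram`, `Diagram.IsClosed`).  Here we define the moves between such diagrams
(relabelling, subdivision of strands and the three Reidemeister moves), the extension of an
invariant to diagrams with double points by the Vassiliev skein relation, and Vassiliev invariants
(finite type invariants).
-/

namespace Pool.Agent.H832R3.VJ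

open LaurentPolynomial Pool.Agent.H891R2.Jones

/-- the same crossing, described with the numbering of the four marked points turned by `180°`
(`c, d, a, b` instead of `a, b, c, d`) -/
def turn {P : Type} (x : Crossing P) : Crossing P :=
  ⟨x.c, x.d, x.a, x.b, !x.underFwd, !x.overFwd⟩

/-- the crossing `x` with over- and under-strand exchanged (directions of the strands are kept) -/
def switch {P : Type} (x : Crossing P) : Crossing P :=
  ⟨x.b, x.c, x.d, x.a, x.overFwd, !x.underFwd⟩

/-- the positive one of the crossings `x`, `switch x` -/
def positive {P : Type} (x : Crossing P) : Crossing P := if x.sign = 1 then x else switch x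

/-- the negative one of the crossings `x`, `switch x` -/
def negative {P : Type} (x : Crossing P) : Crossing P := if x.sign = 1 then switch x else x

/-- relabelling of the marked points of a diagram -/
def mapD {P Q : Type} (f : P → Q) (D : Diagram P) : Diagram Q :=
  ⟨D.arcs.map (Prod.map f f), D.crossings.map (Crossing.map f)⟩

/-- the diagram `D` together with further arcs and crossings -/
def add {P : Type} (D : Diagram P) (arcs : List (P × P)) (crossings : List (Crossing P)) :
    Diagram P :=
  ⟨arcs ++ D.arcs, crossings ++ D.crossings⟩

/-- the diagram `D` on more marked points -/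
def old {P : Type} (I : Type) (D : Diagram P) : Diagram (P ⊕ I) := mapD Sum.inl D

/-- the arc between `p` and `q`, directed from `p` to `q` if `f` is true, from `q` to `p`
otherwise -/
def arc {P : Type} (f : Bool) (p q : P) : P × P := if f then (p, q) else (q, p)

/-- An oriented link diagram together with the finite set of its marked points. -/
structure Dia : Type 1 where
  P : Type
  fin : Finite P
  D : Diagram P

open Classical in
/-- `X` is a (nonempty) diagram of an oriented link: the pieces fit together to closed oriented
curves. -/
def Dia.IsLink (X : Dia) : Prop := Nonempty X.P ∧ X.D.IsClosed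

/-- The four kinks of a strand from `p` to `q`; the new marked point `r` lies on the loop.  The
kinks `0` and `1` lie on the two sides of the strand and are first passed below; `2` and `3` are
`1` and `0` with the crossing switched. -/
def kink {P : Type} (p q r : P) : Fin 4 → Crossing P
  | 0 => ⟨p, r, r, q, true, true⟩
  | 1 => ⟨p, q, r, r, true, false⟩
  | 2 => ⟨r, p, q, r, true, true⟩
  | 3 => ⟨q, p, r, r, false, true⟩

/-- The crossing of a strand `x` from the lower left point `ll` to the upper right point `ur`
(this direction if `f` is true, the opposite one otherwise) and a strand `y` from the lower right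
point `lr` to the upper left point `ul` (this direction if `g` is true, the opposite one
otherwise).  `ov = true`: the strand `x` lies over `y`. -/
def cross {P : Type} (ov : Bool) (ll lr ul ur : P) (f g : Bool) : Crossing P :=
  if ov then ⟨lr, ur, ul, ll, g, !f⟩ else ⟨ll, lr, ur, ul, f, g⟩

/-- The moves between diagrams. -/
inductive Move : Dia → Dia → Prop
  /-- relabelling of the marked points -/
  | relabel {P Q : Type} (hP : Finite P) (hQ : Finite Q) (e : P ≃ Q) (D : Diagram P) :
      Move ⟨P, hP, D⟩ ⟨Q, hQ, mapD e D⟩
  /-- changing the order of the lists of arcs and crossings -/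
  | order {P : Type} (hP : Finite P) (D D' : Diagram P) (h : D.arcs.Perm D'.arcs)
      (h' : D.crossings.Perm D'.crossings) : Move ⟨P, hP, D⟩ ⟨P, hP, D'⟩
  /-- another numbering of the points at a crossing -/
  | turn {P : Type} (hP : Finite P) (D : Diagram P) (x : Crossing P) :
      Move ⟨P, hP, add D [] [x]⟩ ⟨P, hP, add D [] [turn x]⟩
  /-- a new marked point on an arc -/
  | cutArc {P : Type} (hP : Finite P) (hQ : Finite (P ⊕ Unit)) (D : Diagram P) (p q : P) :
      Move ⟨P, hP, add D [(p, q)] []⟩
        ⟨P ⊕ Unit, hQ, add (old Unit D) [(.inl p, .inr ()), (.inr (), .inl q)] []⟩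
  /-- a new marked point `a` on the under-strand, the old one is joined to it by an arc -/
  | cutUnder {P : Type} (hP : Finite P) (hQ : Finite (P ⊕ Unit)) (D : Diagram P) (a b c d : P)
      (f g : Bool) : Move ⟨P, hP, add D [] [⟨a, b, c, d, f, g⟩]⟩
        ⟨P ⊕ Unit, hQ, add (old Unit D) [arc f (.inl a) (.inr ())]
          [⟨.inr (), .inl b, .inl c, .inl d, f, g⟩]⟩
  /-- a new marked point `b` on the over-strand, the old one is joined to it by an arc -/
  | cutOver {P : Type} (hP : Finite P) (hQ : Finite (P ⊕ Unit)) (D : Diagram P) (a b c d : P)
      (f g : Bool) : Move ⟨P, hP, add D [] [⟨a, b, c, d, f, g⟩]⟩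
        ⟨P ⊕ Unit, hQ, add (old Unit D) [arc g (.inl b) (.inr ())]
          [⟨.inl a, .inr (), .inl c, .inl d, f, g⟩]⟩
  /-- the first Reidemeister move: replace an arc by a kink -/
  | first {P : Type} (hP : Finite P) (hQ : Finite (P ⊕ Unit)) (D : Diagram P) (p q : P)
      (k : Fin 4) : Move ⟨P, hP, add D [(p, q)] []⟩
        ⟨P ⊕ Unit, hQ, add (old Unit D) [] [kink (.inl p) (.inl q) (.inr ()) k]⟩
  /-- the second Reidemeister move: a strand with ends `x₀`, `x₁` lying to the left of a strand with
  ends `y₀`, `y₁` is pulled over (`ov = true`) or under it and back; new points `inr false` on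
  the first, `inr true` on the second strand. -/
  | second {P : Type} (hP : Finite P) (hQ : Finite (P ⊕ Bool)) (D : Diagram P) (ov f g : Bool)
      (x₀ x₁ y₀ y₁ : P) : Move ⟨P, hP, add D [arc f x₀ x₁, arc g y₀ y₁] []⟩
        ⟨P ⊕ Bool, hQ, add (old Bool D) []
          [cross ov (.inl x₀) (.inl y₀) (.inr true) (.inr false) f g,
           cross (!ov) (.inr true) (.inr false) (.inl x₁) (.inl y₁) g f]⟩
  /-- the third Reidemeister move: three strands; the strand number `i` enters at the lower side at
  the place `i` and leaves at the upper side at the place `4 - i`.  `ov = true`: strand `1` lies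
  over strand `2`, and strand `2` over strand `3`; `ov = false`: the other way round. -/
  | third {P : Type} (hP : Finite P) (hQ : Finite (P ⊕ Fin 3)) (D : Diagram P)
      (ov f₁ f₂ f₃ : Bool) (b₁ b₂ b₃ t₁ t₂ t₃ : P) :
      Move
        ⟨P ⊕ Fin 3, hQ, add (old (Fin 3) D) []
          [cross ov (.inl b₁) (.inl b₂) (.inr 0) (.inr 1) f₁ f₂,
           cross ov (.inr 1) (.inl b₃) (.inr 2) (.inl t₃) f₁ f₃,
           cross ov (.inr 0) (.inr 2) (.inl t₁) (.inl t₂) f₂ f₃]⟩
        ⟨P ⊕ Fin 3, hQ, add (old (Fin 3) D) []
          [cross ov (.inl b₂) (.inl b₃) (.inr 0) (.inr 1) f₂ f₃,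
           cross ov (.inl b₁) (.inr 0) (.inl t₁) (.inr 2) f₁ f₃,
           cross ov (.inr 2) (.inr 1) (.inl t₂) (.inl t₃) f₁ f₂]⟩

/-- `v` is an invariant of oriented links. -/
def Invariant (v : Dia → ℤ) : Prop := ∀ X Y : Dia, X.IsLink → Y.IsLink → Move X Y → v X = v Y

/-- The value of the extension of `v` on the diagram with arcs `arcs`, crossings `cr` and double
points `l` (every element of `l` is one of the two resolutions of a double point), given by the
Vassiliev skein relation: positive resolution minus negative resolution. -/
def sing (v : Dia → ℤ) {P : Type} (hP : Finite P) (arcs : List (P × P)) :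
    List (Crossing P) → List (Crossing P) → ℤ
  | cr, [] => v ⟨P, hP, ⟨arcs, cr⟩⟩
  | cr, x :: l => sing v hP arcs (positive x :: cr) l - sing v hP arcs (negative x :: cr) l

/-- `v` is a finite type invariant (Vassiliev invariant) of order at most `n`: an invariant of
oriented links, whose extension vanishes on all links with `n + 1` double points. -/
def IsVassiliev (n : ℕ) (v : Dia → ℤ) : Prop :=
  Invariant v ∧ ∀ (P : Type) (hP : Finite P) (arcs : List (P × P)) (cr l : List (Crossing P)),
    l.length = n + 1 → Dia.IsLink ⟨P, hP, ⟨arcs, l ++ cr⟩⟩ → sing v hP arcs cr l = 0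

/-- `X` and `Y` are separated by an integer valued finite type invariant of order at most `d`. -/
def Separated (d : ℕ) (X Y : Dia) : Prop := ∃ n ≤ d, ∃ v, IsVassiliev n v ∧ v X ≠ v Y

/-- the crossingless diagram of the unknot, with one marked point -/
def unknot : Dia := ⟨Unit, inferInstance, ⟨[((), ())], []⟩⟩

/-- the moments `∑ k ^ j a_k` of a Laurent polynomial `∑ a_k T ^ k` -/
noncomputable def moment (j : ℕ) (F : ℤ[T;T⁻¹]) : ℤ := F.coeff.sum fun k c => c * k ^ j

end Pool.Agent.H832R3.VJ
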