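import Pool.Agent.H832R3.VJ.Defs
import Pool.Agent.H891R2.MT.T8

set_option autoImplicit false

/-! Further definitions used in the proofs. -/

namespace Pool.Agent.H832R3.VJ

open Finset LaurentPolynomial Pool.Agent.H891R2.Jones Pool.Agent.H891R2.MT

/-- the normalised weight of a crossing -/
noncomputable def nW (A : ℂ) {P : Type} {N : ℕ} (col : P → Fin N) (x : Crossing P) : ℂ :=
  (-A⁻¹ ^ 3) ^ x.sign * crossW A col x

/-- the weight of a colouring of a diagram -/
noncomputable def VV (A : ℂ) {P : Type} {N : ℕ} (D : Diagram P) (col : P → Fin N) : ℂ :=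
  (D.arcs.map (arcW col)).prod * (D.crossings.map (nW A col)).prod

/-- the extension of the normalised bracket to diagrams with double points -/
noncomputable def singF {P : Type} (arcs : List (P × P)) :
    List (Crossing P) → List (Crossing P) → ℤ[T;T⁻¹]
  | cr, [] => (⟨arcs, cr⟩ : Diagram P).fPoly
  | cr, x :: l => singF arcs (positive x :: cr) l - singF arcs (negative x :: cr) l

/-- the smallest and the largest exponent of `f` are `c - d` and `c + d` -/
def Sharp (f : ℤ[T;T⁻¹]) (c d : ℤ) : Prop :=
  f.coeff (c - d) ≠ 0 ∧ f.coeff (c + d) ≠ 0 ∧ T4b.SIn f (c - d) (c + d)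

/-- the graph stays connected after the removal of one or two edges -/
def ThreeEdgeConnected {k : ℕ} (Γ : Ribbon k) : Prop :=
  ∀ e f : Fin k, Γ.comps ((univ.erase e).erase f) = 1

/-- `r(S) = |S| + comps(S)` -/
noncomputable def rr {k : ℕ} (Γ : Ribbon k) (S : Finset (Fin k)) : ℕ := S.card + Γ.comps S

end Pool.Agent.H832R3.VJ
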