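import Pool.Agent.H832R3.VJ.V10

set_option autoImplicit false

/-! The combinatorial core. -/

namespace Pool.Agent.H832R3.VJ

open Finset LaurentPolynomial Pool.Agent.H891R2.Jones Pool.Agent.H891R2.MT

private theorem nS_erase {k : ℕ} (n : Fin k → ℤ) (e : Fin k) :
    nS n (univ.erase e) = nS n univ - n e := by
  unfold nS
  rw [← Finset.sum_erase_add _ _ (mem_univ e)]
  ring

private theorem nS_singleton {k : ℕ} (n : Fin k → ℤ) (e : Fin k) : nS n {e} = n e := by
  unfold nS
  simp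

private theorem nS_map {k k' : ℕ} (n : Fin k → ℤ) (n' : Fin k' → ℤ) (σ : Fin k ≃ Fin k')
    (h : ∀ e, n e = n' (σ e)) (S : Finset (Fin k)) : nS n' (S.map σ.toEmbedding) = nS n S := by
  unfold nS
  rw [Finset.sum_map]
  exact Finset.sum_congr rfl fun e _ => (h e).symm

/-- the combinatorial core: a correspondence between bridgeless sets with equal values
determines a bijection of the edges -/
theorem core {k k' : ℕ} (hk : 0 < k) (hk' : 0 < k') (Γ : Ribbon k) (Γ' : Ribbon k')
    (h3 : ThreeEdgeConnected Γ) (h3' : ThreeEdgeConnected Γ') (n : Fin k → ℤ) (n' : Fin k' → ℤ)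
    (hn : ∀ S S' : Finset (Fin k), S ≠ S' → nS n S ≠ nS n S')
    (hn' : ∀ S S' : Finset (Fin k'), S ≠ S' → nS n' S ≠ nS n' S') (m : ℤ)
    (h1 : ∀ S, Γ.Bridgeless S → ∃ S', Γ'.Bridgeless S' ∧ 4 * nS n' S' + m = 4 * nS n S ∧
      (4 * rr Γ' S' + 2 * (1 + (Γ.verts + k)) : ℤ) = 4 * rr Γ S + 2 * (1 + (Γ'.verts + k')))
    (h2 : ∀ S', Γ'.Bridgeless S' → ∃ S, Γ.Bridgeless S ∧ 4 * nS n' S' + m = 4 * nS n S ∧
      (4 * rr Γ' S' + 2 * (1 + (Γ.verts + k)) : ℤ) = 4 * rr Γ S + 2 * (1 + (Γ'.verts + k'))) :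
    ∃ σ : Fin k ≃ Fin k', (∀ e, n e = n' (σ e)) ∧
      ∀ S, Γ.Bridgeless S ↔ Γ'.Bridgeless (S.map σ.toEmbedding) := by
  classical
  obtain ⟨S0', b0', e0', r0'⟩ := h1 ∅ (bridgeless_empty Γ)
  obtain ⟨S0, b0, e0, r0⟩ := h2 ∅ (bridgeless_empty Γ')
  have m0' : Γ'.verts ≤ rr Γ' S0' := by
    have := rr_mono Γ' (empty_subset S0')
    rwa [rr_empty] at this
  have m0 : Γ.verts ≤ rr Γ S0 := by
    have := rr_mono Γ (empty_subset S0)
    rwa [rr_empty] at this
  rw [rr_empty] at r0 r0'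
  have hvk : Γ'.verts + k = Γ.verts + k' := by omega
  have z0 : nS n ∅ = 0 := by unfold nS; simp
  have z0' : nS n' ∅ = 0 := by unfold nS; simp
  have hS0 : S0' = ∅ := by
    by_contra hne
    have := rr_lower Γ' S0' b0' hne
    omega
  have hm : m = 0 := by
    rw [hS0, z0, z0'] at e0'
    omega
  subst hm
  -- univ
  obtain ⟨bu, ru, _⟩ := bridgeless_univ Γ hk h3
  obtain ⟨bu', ru', mu'⟩ := bridgeless_univ Γ' hk' h3'
  obtain ⟨S1, b1, e1, r1⟩ := h1 univ bu
  rw [ru] at r1
  have hS1 : S1 = univ := mu' S1 (by push_cast at r1; omega)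
  rw [hS1] at e1
  have huniv : nS n' univ = nS n univ := by omega
  have hto : ∀ e : Fin k, ∃ e' : Fin k', n e = n' e' := by
    intro e
    obtain ⟨be, re⟩ := bridgeless_erase Γ hk h3 e
    obtain ⟨S2, b2, e2, r2⟩ := h1 _ be
    rw [re] at r2
    obtain ⟨e', he'⟩ := eq_erase Γ' hk' h3' S2 (by omega)
    refine ⟨e', ?_⟩
    rw [he', nS_erase, nS_erase, huniv] at e2
    omega
  have hfrom : ∀ e' : Fin k', ∃ e : Fin k, n e = n' e' := by
    intro e'
    obtain ⟨be, re⟩ := bridgeless_erase Γ' hk' h3' e'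
    obtain ⟨S2, b2, e2, r2⟩ := h2 _ be
    rw [re] at r2
    obtain ⟨e, he⟩ := eq_erase Γ hk h3 S2 (by omega)
    refine ⟨e, ?_⟩
    rw [he, nS_erase, nS_erase, huniv] at e2
    omega
  have inj : Function.Injective n := by
    intro a b hab
    by_contra hne
    refine hn {a} {b} (fun h => hne (Finset.singleton_injective h)) ?_
    rw [nS_singleton, nS_singleton, hab]
  have inj' : Function.Injective n' := by
    intro a b hab
    by_contra hne
    refine hn' {a} {b} (fun h => hne (Finset.singleton_injective h)) ?_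
    rw [nS_singleton, nS_singleton, hab]
  choose f hf using hto
  have fb : Function.Bijective f := by
    constructor
    · intro a b hab
      apply inj
      rw [hf a, hf b, hab]
    · intro e'
      obtain ⟨e, he⟩ := hfrom e'
      refine ⟨e, inj' ?_⟩
      rw [← hf e, he]
  refine ⟨Equiv.ofBijective f fb, fun e => hf e, fun S => ?_⟩
  have hmap := nS_map n n' (Equiv.ofBijective f fb) (fun e => hf e) S
  constructor
  · intro hb
    obtain ⟨S', b', e', -⟩ := h1 S hb
    have hEq : S' = S.map (Equiv.ofBijective f fb).toEmbedding := by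
      by_contra hne
      refine hn' _ _ hne ?_
      rw [hmap]
      omega
    rwa [hEq] at b'
  · intro hb
    obtain ⟨S', b', e', -⟩ := h2 _ hb
    rw [hmap] at e'
    have hEq : S = S' := by
      by_contra hne
      refine hn _ _ hne ?_
      omega
    rwa [hEq]

end Pool.Agent.H832R3.VJ
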