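import Pool.Agent.H832R3.VJ.Defs2

set_option autoImplicit false

/-! Matching of clusters. -/

namespace Pool.Agent.H832R3.VJ

open Finset LaurentPolynomial Pool.Agent.H891R2.Jones Pool.Agent.H891R2.MT

/-- one direction: the interval of `i` is contained in the interval of some `j` -/
theorem V9b_aux {ι κ : Type} [DecidableEq ι] [DecidableEq κ] (s : Finset ι) (t : Finset κ)
    (f : ι → ℤ[T;T⁻¹]) (g : κ → ℤ[T;T⁻¹]) (c d : ι → ℤ) (c' d' : κ → ℤ) (L : ℤ)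
    (hf : ∀ i ∈ s, Sharp (f i) (c i) (d i)) (hg : ∀ j ∈ t, Sharp (g j) (c' j) (d' j))
    (hd : ∀ i ∈ s, 0 ≤ d i ∧ d i ≤ L) (hd' : ∀ j ∈ t, 0 ≤ d' j ∧ d' j ≤ L)
    (hsep : ∀ i ∈ s, ∀ i' ∈ s, i ≠ i' → 4 * L < |c i - c i'|)
    (hsep' : ∀ j ∈ t, ∀ j' ∈ t, j ≠ j' → 4 * L < |c' j - c' j'|)
    (h : ∑ i ∈ s, f i = ∑ j ∈ t, g j) (i : ι) (hi : i ∈ s) :
    ∃ j ∈ t, c' j - d' j ≤ c i - d i ∧ c i + d i ≤ c' j + d' j := by
  have key : ∀ e : ℤ, c i - d i ≤ e → e ≤ c i + d i → (f i).coeff e ≠ 0 →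
      ∃ j ∈ t, c' j - d' j ≤ e ∧ e ≤ c' j + d' j := by
    intro e he1 he2 hne
    have h1 : (∑ i ∈ s, f i).coeff e = (f i).coeff e := by
      rw [AddMonoidAlgebra.coeff_sum, Finsupp.finsetSum_apply]
      apply Finset.sum_eq_single_of_mem i hi
      intro i' hi' hne'
      by_contra h2
      have h3 := (hf i' hi').2.2 e h2
      have h4 := hsep i hi i' hi' (Ne.symm hne')
      have h5 := hd i hi
      have h6 := hd i' hi'
      have h7 : |c i - c i'| ≤ 2 * L := by rw [abs_le]; omega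
      omega
    rw [h, AddMonoidAlgebra.coeff_sum, Finsupp.finsetSum_apply] at h1
    have h2 : ∑ j ∈ t, (g j).coeff e ≠ 0 := by rw [h1]; exact hne
    obtain ⟨j, hj, hj2⟩ := Finset.exists_ne_zero_of_sum_ne_zero h2
    exact ⟨j, hj, (hg j hj).2.2 e hj2⟩
  have hdi := hd i hi
  obtain ⟨j1, hj1, a1, b1⟩ := key (c i - d i) le_rfl (by omega) (hf i hi).1
  obtain ⟨j2, hj2, a2, b2⟩ := key (c i + d i) (by omega) le_rfl (hf i hi).2.1
  have e1 := hd' j1 hj1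
  have e2 := hd' j2 hj2
  have hjj : j1 = j2 := by
    by_contra hne
    have h1 := hsep' j1 hj1 j2 hj2 hne
    have h2 : |c' j1 - c' j2| ≤ 4 * L := by rw [abs_le]; omega
    omega
  subst hjj
  exact ⟨j1, hj1, a1, b2⟩

theorem cluster_match {ι κ : Type} [DecidableEq ι] [DecidableEq κ] (s : Finset ι) (t : Finset κ)
    (f : ι → ℤ[T;T⁻¹]) (g : κ → ℤ[T;T⁻¹]) (c d : ι → ℤ) (c' d' : κ → ℤ) (L : ℤ)
    (hf : ∀ i ∈ s, Sharp (f i) (c i) (d i)) (hg : ∀ j ∈ t, Sharp (g j) (c' j) (d' j))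
    (hd : ∀ i ∈ s, 0 ≤ d i ∧ d i ≤ L) (hd' : ∀ j ∈ t, 0 ≤ d' j ∧ d' j ≤ L)
    (hsep : ∀ i ∈ s, ∀ i' ∈ s, i ≠ i' → 4 * L < |c i - c i'|)
    (hsep' : ∀ j ∈ t, ∀ j' ∈ t, j ≠ j' → 4 * L < |c' j - c' j'|)
    (h : ∑ i ∈ s, f i = ∑ j ∈ t, g j) (i : ι) (hi : i ∈ s) :
    ∃ j ∈ t, c' j = c i ∧ d' j = d i := by
  obtain ⟨j, hj, a1, a2⟩ := V9b_aux s t f g c d c' d' L hf hg hd hd' hsep hsep' h i hi
  obtain ⟨i1, hi1, b1, b2⟩ := V9b_aux t s g f c' d' c d L hg hf hd' hd hsep' hsep h.symm j hj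
  have e1 := hd i hi
  have e2 := hd i1 hi1
  have hii : i = i1 := by
    by_contra hne
    have h1 := hsep i hi i1 hi1 hne
    have h2 : |c i - c i1| ≤ 4 * L := by rw [abs_le]; omega
    omega
  subst hii
  exact ⟨j, hj, by omega, by omega⟩

end Pool.Agent.H832R3.VJ
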