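import Pool.Agent.H832R3.VJ.V9
import Pool.Agent.H832R3.VJ.V9b
import Pool.Agent.H832R3.VJ.V11
import Pool.Agent.H891R2.MT.Fin

set_option autoImplicit false

/-! The bracket determines the graph and the numbers. -/

namespace Pool.Agent.H832R3.VJ

open Finset LaurentPolynomial Pool.Agent.H891R2.Jones Pool.Agent.H891R2.MT

namespace V11b

/-- `-T 2 - T (-2)` -/
noncomputable abbrev dl : ℤ[T;T⁻¹] := -T 2 - T (-2)

/-- the term of the state `S`, multiplied by a power of `δ` -/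
noncomputable def tm {k : ℕ} (Γ : Ribbon k) (n : Fin k → ℤ) (a : ℕ) (S : Finset (Fin k)) :
    ℤ[T;T⁻¹] :=
  (((-1 : ℤ[T;T⁻¹]) ^ (nS n S).natAbs * T (4 * nS n S)) *
        Polynomial.aeval ((-T 2 - T (-2)) ^ 2 : ℤ[T;T⁻¹]) (Γ.cpoly S)) * (-T 2 - T (-2)) ^ a

theorem sharp_tm {k : ℕ} (Γ : Ribbon k) (n : Fin k → ℤ) (a : ℕ) (S : Finset (Fin k))
    (h : Γ.Bridgeless S) : Sharp (tm Γ n a S) (4 * nS n S) (4 * rr Γ S + 2 * a) := by
  have h1 := cpoly_natDegree Γ S h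
  have h2 := sharp_term (Γ.cpoly S) h1.1 (nS n S) a
  rw [h1.2] at h2
  exact h2

theorem tm_zero {k : ℕ} (Γ : Ribbon k) (n : Fin k → ℤ) (a : ℕ) (S : Finset (Fin k))
    (h : ¬ Γ.Bridgeless S) : tm Γ n a S = 0 := by
  have h1 : Γ.cpoly S = 0 := by
    by_contra h2
    exact h ((cpoly_ne_zero_iff' Γ S).1 h2)
  unfold tm
  rw [h1, map_zero, mul_zero, zero_mul]

theorem sharp_CT (ε m : ℤ) (hε : ε ≠ 0) : Sharp (C ε * T m : ℤ[T;T⁻¹]) m 0 := by
  have h1 : (C ε * T m : ℤ[T;T⁻¹]).coeff m = ε := by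
    rw [T8.coeff_mul_T, C_apply, if_pos (by ring)]
  refine ⟨?_, ?_, ?_⟩
  · rw [sub_zero, h1]; exact hε
  · rw [add_zero, h1]; exact hε
  · exact ((T4b.SIn.C ε).mul (T4b.SIn.T m)).mono (by omega) (by omega)

theorem neg_one_pow_eq (a : ℕ) : ((-1 : ℤ[T;T⁻¹]) ^ a) = C ((-1) ^ a) := by
  rw [map_pow, map_neg, map_one]

theorem relation {k k' : ℕ} (hk0 : 0 < k) (hk0' : 0 < k')
    (Γ : Ribbon k) (Γ' : Ribbon k') (hΓ : Γ.Planar) (hΓ' : Γ'.Planar)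
    (n : Fin k → ℤ) (n' : Fin k' → ℤ) (ε m : ℤ) (hε : ε ≠ 0)
    (hb : (Γ.link n).std.bracket = C ε * T m * (Γ'.link n').std.bracket) :
    ∃ ε2 m2 : ℤ, ε2 ≠ 0 ∧ ∑ S : Finset (Fin k), tm Γ n (1 + (Γ'.verts + k')) S =
      ∑ S : Finset (Fin k'), (C ε2 * T m2) * tm Γ' n' (1 + (Γ.verts + k)) S := by
  have hF := Pool.Agent.H891R2.MT.identity Γ hΓ hk0 n
  have hF' := Pool.Agent.H891R2.MT.identity Γ' hΓ' hk0' n'
  refine ⟨(-1) ^ (nS n univ).natAbs * (-1) ^ (nS n' univ).natAbs * ε,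
    3 * nS n univ + m + (- (3 * nS n' univ)), ?_, ?_⟩
  · exact mul_ne_zero (mul_ne_zero (pow_ne_zero _ (by norm_num)) (pow_ne_zero _ (by norm_num))) hε
  · unfold tm
    rw [← Finset.sum_mul, ← Finset.mul_sum, ← Finset.sum_mul, hF, hF', hb, map_mul, map_mul,
      ← neg_one_pow_eq, ← neg_one_pow_eq, T_add, T_add]
    have h1 : ((-1 : ℤ[T;T⁻¹]) ^ (nS n' univ).natAbs) * (-1) ^ (nS n' univ).natAbs = 1 := by
      rw [← mul_pow]; simp
    have h2 : (T (-(3 * nS n' univ)) : ℤ[T;T⁻¹]) * T (3 * nS n' univ) = 1 := by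
      rw [← T_add, neg_add_cancel, T_zero]
    have h3 : ∀ (s s' t t1 t' c tm P Q B : ℤ[T;T⁻¹]), s' * s' = 1 → t1 * t' = 1 →
        s * t * P * (c * tm * B) * Q = s * s' * c * (t * tm * t1) * (s' * t' * Q * B * P) := by
      intro s s' t t1 t' c tm P Q B e1 e2
      calc s * t * P * (c * tm * B) * Q
          = s * t * P * (c * tm * B) * Q * (s' * s') * (t1 * t') := by rw [e1, e2]; ring
        _ = _ := by ring
    exact h3 _ _ _ _ _ _ _ _ _ _ h1 h2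

end V11b

open V11b in
theorem bracket_determines {k k' K : ℕ} (hk0 : 0 < k) (hk0' : 0 < k') (hk : k ≤ K) (hk' : k' ≤ K)
    (Γ : Ribbon k) (Γ' : Ribbon k') (hΓ : Γ.Planar) (hΓ' : Γ'.Planar)
    (h3 : ThreeEdgeConnected Γ) (h3' : ThreeEdgeConnected Γ') (n : Fin k → ℤ) (n' : Fin k' → ℤ)
    (hn : ∀ S S' : Finset (Fin k), S ≠ S' → 8 * K + 8 < |nS n S - nS n S'|)
    (hn' : ∀ S S' : Finset (Fin k'), S ≠ S' → 8 * K + 8 < |nS n' S - nS n' S'|)
    (ε m : ℤ) (hε : ε ≠ 0)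
    (hb : (Γ.link n).std.bracket = C ε * T m * (Γ'.link n').std.bracket) :
    ∃ σ : Fin k ≃ Fin k', (∀ e, n e = n' (σ e)) ∧
      ∀ S, Γ.Bridgeless S ↔ Γ'.Bridgeless (S.map σ.toEmbedding) := by
  classical
  obtain ⟨ε2, m2, hε2, hrel⟩ := relation hk0 hk0' Γ Γ' hΓ hΓ' n n' ε m hε hb
  -- bounds
  have hr : ∀ S, rr Γ S ≤ k + 1 := by
    intro S
    rw [← (bridgeless_univ Γ hk0 h3).2.1]
    exact rr_mono Γ (Finset.subset_univ S)
  have hr' : ∀ S, rr Γ' S ≤ k' + 1 := by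
    intro S
    rw [← (bridgeless_univ Γ' hk0' h3').2.1]
    exact rr_mono Γ' (Finset.subset_univ S)
  have hv : Γ.verts ≤ k + 1 := by rw [← rr_empty]; exact hr ∅
  have hv' : Γ'.verts ≤ k' + 1 := by rw [← rr_empty]; exact hr' ∅
  set s : Finset (Finset (Fin k)) := univ.filter (fun S => Γ.Bridgeless S) with hs
  set t : Finset (Finset (Fin k')) := univ.filter (fun S => Γ'.Bridgeless S) with ht
  have hsum : ∑ S ∈ s, tm Γ n (1 + (Γ'.verts + k')) S =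
      ∑ S ∈ t, (C ε2 * T m2) * tm Γ' n' (1 + (Γ.verts + k)) S := by
    have e1 : ∑ S ∈ s, tm Γ n (1 + (Γ'.verts + k')) S =
        ∑ S : Finset (Fin k), tm Γ n (1 + (Γ'.verts + k')) S := by
      apply Finset.sum_subset (Finset.subset_univ _)
      intro S _ hS
      apply tm_zero
      intro h
      exact hS (Finset.mem_filter.2 ⟨Finset.mem_univ _, h⟩)
    have e2 : ∑ S ∈ t, (C ε2 * T m2) * tm Γ' n' (1 + (Γ.verts + k)) S =
        ∑ S : Finset (Fin k'), (C ε2 * T m2) * tm Γ' n' (1 + (Γ.verts + k)) S := by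
      apply Finset.sum_subset (Finset.subset_univ _)
      intro S _ hS
      rw [tm_zero Γ' n' _ S (fun h => hS (Finset.mem_filter.2 ⟨Finset.mem_univ _, h⟩)), mul_zero]
    rw [e1, e2, hrel]
  have hf : ∀ S ∈ s, Sharp (tm Γ n (1 + (Γ'.verts + k')) S) (4 * nS n S)
      (4 * rr Γ S + 2 * ((1 + (Γ'.verts + k') : ℕ) : ℤ)) := by
    intro S hS
    exact sharp_tm Γ n _ S (Finset.mem_filter.1 hS).2
  have hg : ∀ S ∈ t, Sharp ((C ε2 * T m2) * tm Γ' n' (1 + (Γ.verts + k)) S) (m2 + 4 * nS n' S)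
      (0 + (4 * rr Γ' S + 2 * ((1 + (Γ.verts + k) : ℕ) : ℤ))) := by
    intro S hS
    exact (sharp_CT ε2 m2 hε2).mul (sharp_tm Γ' n' _ S (Finset.mem_filter.1 hS).2)
  have hd : ∀ S ∈ s, (0 : ℤ) ≤ 4 * rr Γ S + 2 * ((1 + (Γ'.verts + k') : ℕ) : ℤ) ∧
      4 * (rr Γ S : ℤ) + 2 * ((1 + (Γ'.verts + k') : ℕ) : ℤ) ≤ 8 * K + 8 := by
    intro S _
    have h1 := hr S
    push_cast
    constructor
    · positivity
    · have : (rr Γ S : ℤ) ≤ k + 1 := by exact_mod_cast h1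
      have : (Γ'.verts : ℤ) ≤ k' + 1 := by exact_mod_cast hv'
      have : (k : ℤ) ≤ K := by exact_mod_cast hk
      have : (k' : ℤ) ≤ K := by exact_mod_cast hk'
      linarith
  have hd' : ∀ S ∈ t, (0 : ℤ) ≤ 0 + (4 * rr Γ' S + 2 * ((1 + (Γ.verts + k) : ℕ) : ℤ)) ∧
      0 + (4 * (rr Γ' S : ℤ) + 2 * ((1 + (Γ.verts + k) : ℕ) : ℤ)) ≤ 8 * K + 8 := by
    intro S _
    have h1 := hr' S
    push_cast
    constructor
    · positivity
    · have : (rr Γ' S : ℤ) ≤ k' + 1 := by exact_mod_cast h1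
      have : (Γ.verts : ℤ) ≤ k + 1 := by exact_mod_cast hv
      have : (k : ℤ) ≤ K := by exact_mod_cast hk
      have : (k' : ℤ) ≤ K := by exact_mod_cast hk'
      linarith
  have hsep : ∀ S ∈ s, ∀ S' ∈ s, S ≠ S' → 4 * (8 * K + 8 : ℤ) < |4 * nS n S - 4 * nS n S'| := by
    intro S _ S' _ hne
    have h1 := hn S S' hne
    rw [← mul_sub, abs_mul]
    norm_num
    linarith
  have hsep' : ∀ S ∈ t, ∀ S' ∈ t, S ≠ S' →
      4 * (8 * K + 8 : ℤ) < |(m2 + 4 * nS n' S) - (m2 + 4 * nS n' S')| := by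
    intro S _ S' _ hne
    have h1 := hn' S S' hne
    rw [add_sub_add_left_eq_sub, ← mul_sub, abs_mul]
    norm_num
    linarith
  have hne : ∀ S S' : Finset (Fin k), S ≠ S' → nS n S ≠ nS n S' := by
    intro S S' h e
    have h1 := hn S S' h
    rw [e, sub_self, abs_zero] at h1
    have : (0 : ℤ) ≤ K := by positivity
    linarith
  have hne' : ∀ S S' : Finset (Fin k'), S ≠ S' → nS n' S ≠ nS n' S' := by
    intro S S' h e
    have h1 := hn' S S' h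
    rw [e, sub_self, abs_zero] at h1
    have : (0 : ℤ) ≤ K := by positivity
    linarith
  refine core hk0 hk0' Γ Γ' h3 h3' n n' hne hne' m2 ?_ ?_
  · intro S hS
    obtain ⟨S', hS', e1, e2⟩ := cluster_match s t _ _ (fun S => 4 * nS n S)
      (fun S => 4 * rr Γ S + 2 * ((1 + (Γ'.verts + k') : ℕ) : ℤ)) (fun S => m2 + 4 * nS n' S)
      (fun S => 0 + (4 * rr Γ' S + 2 * ((1 + (Γ.verts + k) : ℕ) : ℤ))) (8 * K + 8)
      hf hg hd hd' hsep hsep' hsum S (Finset.mem_filter.2 ⟨Finset.mem_univ _, hS⟩)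
    refine ⟨S', (Finset.mem_filter.1 hS').2, ?_, ?_⟩
    · linarith
    · push_cast at e2
      linarith
  · intro S' hS'
    obtain ⟨S, hS, e1, e2⟩ := cluster_match t s _ _ (fun S => m2 + 4 * nS n' S)
      (fun S => 0 + (4 * rr Γ' S + 2 * ((1 + (Γ.verts + k) : ℕ) : ℤ))) (fun S => 4 * nS n S)
      (fun S => 4 * rr Γ S + 2 * ((1 + (Γ'.verts + k') : ℕ) : ℤ)) (8 * K + 8)
      hg hf hd' hd hsep' hsep hsum.symm S' (Finset.mem_filter.2 ⟨Finset.mem_univ _, hS'⟩)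
    refine ⟨S, (Finset.mem_filter.1 hS).2, ?_, ?_⟩
    · linarith
    · push_cast at e2
      linarith

end Pool.Agent.H832R3.VJ
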