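import Pool.Agent.H832R3.VJ.Defs2

set_option autoImplicit false

/-! Numbers of terms. -/

namespace Pool.Agent.H832R3.VJ

open Finset LaurentPolynomial Pool.Agent.H891R2.Jones Pool.Agent.H891R2.MT

theorem card_support_le (f : ℤ[T;T⁻¹]) (lo : ℤ) (L : ℕ) (h : T4b.SIn f lo (lo + L)) :
    f.coeff.support.card ≤ L + 1 := by
  have h1 : f.coeff.support ⊆ Finset.Icc lo (lo + L) := by
    intro j hj
    rw [Finsupp.mem_support_iff] at hj
    rw [Finset.mem_Icc]
    exact h j hj
  refine (Finset.card_le_card h1).trans ?_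
  rw [Int.card_Icc]
  omega

theorem card_support_sum {ι : Type} (s : Finset ι) (f : ι → ℤ[T;T⁻¹]) (B : ℕ)
    (h : ∀ i ∈ s, (f i).coeff.support.card ≤ B) :
    (∑ i ∈ s, f i).coeff.support.card ≤ s.card * B := by
  classical
  have h1 : (∑ i ∈ s, f i).coeff.support ⊆ s.biUnion (fun i => (f i).coeff.support) := by
    intro j hj
    rw [Finsupp.mem_support_iff] at hj
    rw [Finset.mem_biUnion]
    by_contra hcon
    push Not at hcon
    apply hj
    rw [AddMonoidAlgebra.coeff_sum, Finsupp.finsetSum_apply]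
    refine Finset.sum_eq_zero fun i hi => ?_
    have := hcon i hi
    rwa [Finsupp.notMem_support_iff] at this
  refine (Finset.card_le_card h1).trans (Finset.card_biUnion_le.trans ?_)
  calc ∑ i ∈ s, (f i).coeff.support.card ≤ ∑ _i ∈ s, B := Finset.sum_le_sum h
    _ = s.card * B := by rw [Finset.sum_const, smul_eq_mul]

/-- the left-hand side of `identity` multiplied by a power of `δ` has few terms -/
theorem card_terms {k : ℕ} (Γ : Ribbon k) (hΓ : Γ.Planar) (hk : 0 < k) (n : Fin k → ℤ) (a : ℕ) :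
    (((-T 2 - T (-2)) ^ (a + (1 + (Γ.verts + k))) * (Γ.link n).std.bracket :
      ℤ[T;T⁻¹])).coeff.support.card ≤ 2 ^ k * (8 * k + 4 * a + 9) := by
  classical
  have hid := identity Γ hΓ hk n
  set u : ℤ[T;T⁻¹] := (-1) ^ (nS n univ).natAbs * T (-(3 * nS n univ)) with hu
  have hu1 : u * ((-1) ^ (nS n univ).natAbs * T (3 * nS n univ)) = 1 := by
    have h1 : ((-1 : ℤ[T;T⁻¹]) ^ (nS n univ).natAbs) * (-1) ^ (nS n univ).natAbs = 1 := by
      rw [← mul_pow]
      norm_num
    have h2 : (T (-(3 * nS n univ)) * T (3 * nS n univ) : ℤ[T;T⁻¹]) = 1 := by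
      rw [← T_add, neg_add_cancel, T_zero]
    calc u * ((-1) ^ (nS n univ).natAbs * T (3 * nS n univ)) =
        (((-1 : ℤ[T;T⁻¹]) ^ (nS n univ).natAbs) * (-1) ^ (nS n univ).natAbs) *
          (T (-(3 * nS n univ)) * T (3 * nS n univ)) := by rw [hu]; ring
      _ = 1 := by rw [h1, h2, one_mul]
  have hexp : ((-T 2 - T (-2)) ^ (a + (1 + (Γ.verts + k))) * (Γ.link n).std.bracket :
      ℤ[T;T⁻¹]) = ∑ S : Finset (Fin k), u * (-T 2 - T (-2)) ^ a *
        (((-1 : ℤ[T;T⁻¹]) ^ (nS n S).natAbs * T (4 * nS n S)) *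
        Polynomial.aeval ((-T 2 - T (-2)) ^ 2 : ℤ[T;T⁻¹]) (Γ.cpoly S)) := by
    rw [← Finset.mul_sum, hid]
    calc ((-T 2 - T (-2)) ^ (a + (1 + (Γ.verts + k))) * (Γ.link n).std.bracket : ℤ[T;T⁻¹]) =
        (u * ((-1) ^ (nS n univ).natAbs * T (3 * nS n univ))) *
          ((-T 2 - T (-2)) ^ (a + (1 + (Γ.verts + k))) * (Γ.link n).std.bracket) := by
          rw [hu1, one_mul]
      _ = _ := by
          rw [pow_add]
          ring
  rw [hexp]
  refine (card_support_sum _ _ (8 * k + 4 * a + 9) ?_).trans ?_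
  · intro S _
    have hdeg : (Γ.cpoly S).natDegree ≤ k + 1 := by
      rcases cpoly_zero_or_monic Γ S with h1 | ⟨_, h1⟩
      · rw [h1]; simp
      · rw [h1]
        have h2 := card_add_comps_le Γ S
        rw [hΓ.1] at h2
        exact h2
    have h1 := (((T4b.SIn_sgn (nS n univ).natAbs).mul (T4b.SIn.T (-(3 * nS n univ)))).mul
      (T4b.SIn_d.pow a)).mul (((T4b.SIn_sgn (nS n S).natAbs).mul (T4b.SIn.T (4 * nS n S))).mul
        (T4b.SIn_aeval (Γ.cpoly S) hdeg))
    refine card_support_le _ (-(3 * nS n univ) + 4 * nS n S - 2 * a - 4 * (k + 1))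
      (8 * k + 4 * a + 8) (h1.mono ?_ ?_) <;> push_cast <;> nlinarith
  · rw [Finset.card_univ, Fintype.card_finset, Fintype.card_fin]

/-- the normalised polynomial in terms of the bracket of the unoriented diagram -/
theorem fPoly_orients {k : ℕ} (hk : 0 < k) (Γ : Ribbon k) (n : Fin k → ℤ)
    (D : Diagram (Ribbon.Pt n)) (hD : Orients D (Γ.link n)) :
    ∃ ε m : ℤ, (ε = 1 ∨ ε = -1) ∧ D.fPoly = C ε * T m * (Γ.link n).std.bracket := by
  have hne : Nonempty (Ribbon.Pt n) := ⟨⟨⟨0, hk⟩, 0, true⟩⟩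
  refine ⟨if Even D.writhe then 1 else -1, -3 * D.writhe, ?_, ?_⟩
  · split_ifs
    · exact Or.inl rfl
    · exact Or.inr rfl
  · rw [← T6.bracket_orients D _ hD]
    unfold Diagram.fPoly
    by_cases hw : Even D.writhe
    · simp only [hw, if_true, map_one]
    · simp only [hw, if_false, map_neg, map_one]

end Pool.Agent.H832R3.VJ
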