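import Pool.Agent.H832R3.VJ.V8
import Pool.Agent.H832R3.VJ.V11b
import Pool.Agent.H832R3.VJ.V12

set_option autoImplicit false

/-! The final theorems. -/

namespace Pool.Agent.H832R3.VJ

open Finset LaurentPolynomial Pool.Agent.H891R2.Jones Pool.Agent.H891R2.MT

namespace FinL

theorem card_support_sub (f g : ℤ[T;T⁻¹]) :
    (f - g).coeff.support.card ≤ f.coeff.support.card + g.coeff.support.card := by
  classical
  have h : (f - g).coeff.support ⊆ f.coeff.support ∪ g.coeff.support := by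
    intro j hj
    rw [Finsupp.mem_support_iff] at hj
    rw [Finset.mem_union, Finsupp.mem_support_iff, Finsupp.mem_support_iff]
    by_contra hcon
    push Not at hcon
    apply hj
    rw [AddMonoidAlgebra.coeff_sub, Finsupp.sub_apply, hcon.1, hcon.2, sub_zero]
  exact (Finset.card_le_card h).trans (Finset.card_union_le _ _)

theorem card_support_unit (ε m : ℤ) (f : ℤ[T;T⁻¹]) :
    (C ε * T m * f).coeff.support.card ≤ f.coeff.support.card := by
  classical
  have h : (C ε * T m * f).coeff.support ⊆ f.coeff.support.image (fun j => j + m) := by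
    intro j hj
    rw [Finsupp.mem_support_iff] at hj
    rw [Finset.mem_image]
    refine ⟨j - m, ?_, by ring⟩
    rw [Finsupp.mem_support_iff]
    intro h0
    apply hj
    have h1 : (C ε * T m * f : ℤ[T;T⁻¹]) = ε • (f * T m) := by
      rw [LaurentPolynomial.smul_eq_C_mul]
      ring
    rw [h1, AddMonoidAlgebra.coeff_smul, Finsupp.smul_apply, T8.coeff_mul_T, h0, smul_zero]
  exact (Finset.card_le_card h).trans Finset.card_image_le

theorem delta_ne : (-T 2 - T (-2) : ℤ[T;T⁻¹]) ≠ 0 := by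
  intro h1
  have := T8.coeff_d_pow 1
  rw [pow_one, h1] at this
  exact this rfl

theorem verts_le {k : ℕ} (Γ : Ribbon k) (hΓ : Γ.Planar) : Γ.verts ≤ k + 1 := by
  have h1 := card_add_comps_le Γ ∅
  have h2 : Γ.comps ∅ = Γ.verts := by
    have := rr_empty Γ
    unfold rr at this
    simpa using this
  rw [hΓ.1, h2] at h1
  simpa using h1

theorem separated_mono {d d' : ℕ} (h : d ≤ d') {X Y : Dia} (hs : Separated d X Y) :
    Separated d' X Y := by
  obtain ⟨n, hn, v, hv⟩ := hs
  exact ⟨n, hn.trans h, v, hv⟩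

end FinL

open FinL

/-- Vassiliev invariants of bounded order separate the links with lacunary twist numbers. -/
theorem complete {k k' K : ℕ} (hk0 : 0 < k) (hk0' : 0 < k') (hk : k ≤ K) (hk' : k' ≤ K)
    (Γ : Ribbon k) (Γ' : Ribbon k') (hΓ : Γ.Planar) (hΓ' : Γ'.Planar)
    (h3 : ThreeEdgeConnected Γ) (h3' : ThreeEdgeConnected Γ') (n : Fin k → ℤ) (n' : Fin k' → ℤ)
    (hn : ∀ S S' : Finset (Fin k), S ≠ S' → 8 * K + 8 < |∑ e ∈ S, n e - ∑ e ∈ S', n e|)
    (hn' : ∀ S S' : Finset (Fin k'), S ≠ S' → 8 * K + 8 < |∑ e ∈ S, n' e - ∑ e ∈ S', n' e|)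
    (D : Diagram (Ribbon.Pt n)) (D' : Diagram (Ribbon.Pt n')) (hD : Orients D (Γ.link n))
    (hD' : Orients D' (Γ'.link n'))
    (h : ¬ Separated (2 ^ (K + 1) * (16 * K + 17)) ⟨_, inferInstance, D⟩ ⟨_, inferInstance, D'⟩) :
    ∃ σ : Fin k ≃ Fin k', (∀ e, n e = n' (σ e)) ∧
      ∀ S, Γ.Bridgeless S ↔ Γ'.Bridgeless (S.map σ.toEmbedding) := by
  obtain ⟨ε, m, hε, hf⟩ := fPoly_orients hk0 Γ n D hD
  obtain ⟨ε', m', hε', hf'⟩ := fPoly_orients hk0' Γ' n' D' hD'
  have hv := verts_le Γ hΓ
  have hv' := verts_le Γ' hΓ'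
  have heq : D.fPoly = D'.fPoly := by
    by_contra hne
    apply h
    refine separated_mono (Nat.sub_le _ 1) (separated_of_ne (2 ^ (K + 1) * (16 * K + 17))
      ⟨_, inferInstance, D⟩ ⟨_, inferInstance, D'⟩
      ((-T 2 - T (-2)) ^ ((1 + (Γ.verts + k)) + (1 + (Γ'.verts + k'))))
      (pow_ne_zero _ delta_ne) ?_ hne)
    rw [mul_sub]
    refine (card_support_sub _ _).trans ?_
    have e1 : ((-T 2 - T (-2) : ℤ[T;T⁻¹]) ^ ((1 + (Γ.verts + k)) + (1 + (Γ'.verts + k')))) * 
        D.fPoly = C ε * T m * ((-T 2 - T (-2)) ^ ((1 + (Γ'.verts + k')) + (1 + (Γ.verts + k))) * 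
          (Γ.link n).std.bracket) := by
      rw [hf]
      ring
    have e2 : ((-T 2 - T (-2) : ℤ[T;T⁻¹]) ^ ((1 + (Γ.verts + k)) + (1 + (Γ'.verts + k')))) * 
        D'.fPoly = C ε' * T m' * ((-T 2 - T (-2)) ^ ((1 + (Γ.verts + k)) + (1 + (Γ'.verts + k'))) * 
          (Γ'.link n').std.bracket) := by
      rw [hf']
      ring
    have b1 : (((-T 2 - T (-2) : ℤ[T;T⁻¹]) ^ ((1 + (Γ.verts + k)) + (1 + (Γ'.verts + k')))) * 
        D.fPoly).coeff.support.card ≤ 2 ^ K * (16 * K + 17) := by
      rw [e1]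
      refine (card_support_unit _ _ _).trans ((card_terms Γ hΓ hk0 n (1 + (Γ'.verts + k'))).trans ?_)
      exact Nat.mul_le_mul (Nat.pow_le_pow_right (by norm_num) hk) (by omega)
    have b2 : (((-T 2 - T (-2) : ℤ[T;T⁻¹]) ^ ((1 + (Γ.verts + k)) + (1 + (Γ'.verts + k')))) * 
        D'.fPoly).coeff.support.card ≤ 2 ^ K * (16 * K + 17) := by
      rw [e2]
      refine (card_support_unit _ _ _).trans ((card_terms Γ' hΓ' hk0' n' (1 + (Γ.verts + k))).trans ?_)
      exact Nat.mul_le_mul (Nat.pow_le_pow_right (by norm_num) hk') (by omega)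
    have b3 := add_le_add b1 b2
    refine b3.trans (le_of_eq ?_)
    rw [pow_succ]
    ring
  have hC : ∀ x : ℤ, x = 1 ∨ x = -1 → (C x * C x : ℤ[T;T⁻¹]) = 1 := by
    rintro x (rfl | rfl)
    · rw [← map_mul]; norm_num
    · rw [← map_mul]; norm_num
  have hb : (Γ.link n).std.bracket = C (ε * ε') * T (m' - m) * (Γ'.link n').std.bracket := by
    have h1 : C ε * T m * (Γ.link n).std.bracket = C ε' * T m' * (Γ'.link n').std.bracket := by
      rw [← hf, ← hf', heq]
    have h2 : (T m * T (-m) : ℤ[T;T⁻¹]) = 1 := by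
      rw [← T_add, add_neg_cancel, T_zero]
    have h3 := hC ε hε
    calc (Γ.link n).std.bracket = C ε * T (-m) * (C ε * T m * (Γ.link n).std.bracket) := by
          have : C ε * T (-m) * (C ε * T m * (Γ.link n).std.bracket) = 
            (C ε * C ε) * (T m * T (-m)) * (Γ.link n).std.bracket := by ring
          rw [this, h3, h2]
          ring
      _ = C ε * T (-m) * (C ε' * T m' * (Γ'.link n').std.bracket) := by rw [h1]
      _ = _ := by
          rw [map_mul, sub_eq_add_neg, T_add]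
          ring
  exact bracket_determines hk0 hk0' hk hk' Γ Γ' hΓ hΓ' h3 h3' n n' hn hn' (ε * ε') (m' - m)
    (by rcases hε with rfl | rfl <;> rcases hε' with rfl | rfl <;> norm_num) hb

theorem fPoly_unknot : unknot.D.fPoly = 1 := by
  have hw : unknot.D.writhe = 0 := rfl
  have hb : unknot.D.bracket = 1 := by
    unfold Diagram.bracket
    have h1 : ∀ s : Fin unknot.D.crossings.length → Bool, unknot.D.loops s = 1 := by
      intro s
      unfold Diagram.loops
      rw [Nat.card_eq_one_iff_unique]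
      refine ⟨⟨fun x y => ?_⟩, ⟨Quot.mk _ ()⟩⟩
      induction x using Quot.ind with
      | mk a =>
        induction y using Quot.ind with
        | mk b => 
          cases a
          cases b
          rfl
    have h2 : ∀ s : Fin unknot.D.crossings.length → Bool, Diagram.weight s = 0 := fun s => by
      unfold Diagram.weight
      exact Finset.sum_eq_zero (fun i _ => i.elim0)
    simp only [h1, h2, Nat.sub_self, pow_zero, mul_one, T_zero]
    rw [Finset.sum_const, Finset.card_univ]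
    have : Fintype.card (Fin unknot.D.crossings.length → Bool) = 1 := by
      rw [Fintype.card_fun]
      rfl
    rw [this, one_smul]
  unfold Diagram.fPoly
  rw [hw, hb]
  simp

/-- Vassiliev invariants of bounded order detect that almost all `D(n)` are knotted. -/
theorem detect {k : ℕ} (hk0 : 0 < k) (Γ : Ribbon k) (hΓ : Γ.Planar) (n : Fin k → ℤ)
    (D : Diagram (Ribbon.Pt n)) (hD : Orients D (Γ.link n)) (hc : D.IsClosed)
    (h : ¬ Separated ((2 ^ k + 1) * (8 * k + 9)) ⟨_, inferInstance, D⟩ unknot) :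
    SpanLE 0 (Γ.link n) := by
  obtain ⟨ε, m, hε, hf⟩ := fPoly_orients hk0 Γ n D hD
  have hv := verts_le Γ hΓ
  have heq : D.fPoly = 1 := by
    by_contra hne
    apply h
    refine separated_mono (Nat.sub_le _ 1) (separated_of_ne ((2 ^ k + 1) * (8 * k + 9))
      ⟨_, inferInstance, D⟩ unknot ((-T 2 - T (-2)) ^ (0 + (1 + (Γ.verts + k))))
      (pow_ne_zero _ delta_ne) ?_ (by rw [fPoly_unknot]; exact hne))
    rw [fPoly_unknot, mul_sub]
    refine (card_support_sub _ _).trans ?_
    have e1 : ((-T 2 - T (-2) : ℤ[T;T⁻¹]) ^ (0 + (1 + (Γ.verts + k)))) * 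
        D.fPoly = C ε * T m * ((-T 2 - T (-2)) ^ (0 + (1 + (Γ.verts + k))) * 
          (Γ.link n).std.bracket) := by
      rw [hf]
      ring
    have b1 : (((-T 2 - T (-2) : ℤ[T;T⁻¹]) ^ (0 + (1 + (Γ.verts + k)))) * 
        D.fPoly).coeff.support.card ≤ 2 ^ k * (8 * k + 9) := by
      rw [e1]
      refine (card_support_unit _ _ _).trans ((card_terms Γ hΓ hk0 n 0).trans ?_)
      exact Nat.mul_le_mul_left _ (by omega)
    have b2 : (((-T 2 - T (-2) : ℤ[T;T⁻¹]) ^ (0 + (1 + (Γ.verts + k)))) * 1).coeff.support.card ≤ 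
        8 * k + 9 := by
      rw [mul_one]
      refine card_support_le _ (-(4 * k + 4)) (8 * k + 8) ?_
      refine (T4b.SIn_d.pow _).mono ?_ ?_ <;> push_cast <;> omega
    have b3 := add_le_add b1 b2
    refine b3.trans (le_of_eq ?_)
    ring
  refine ⟨D, hD, hc, 0, ?_⟩
  intro j hj
  rw [heq] at hj
  have := T4b.SIn.one j hj
  constructor <;> push_cast <;> linarith [this.1, this.2]

end Pool.Agent.H832R3.VJ
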