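import Pool.Agent.H832R3.VJ.GDefs
import Pool.Agent.H832R2.JR.Moment

set_option autoImplicit false

/-! The normalised bracket of a diagram given by a Gauss word. -/

namespace Pool.Agent.H832R3.VJ

open Finset LaurentPolynomial Pool.Agent.H891R2.Jones Pool.Agent.H832R2

variable {N : ℕ}

namespace G1

theorem count_map_sum {α β : Type} [DecidableEq β] (l : List α) (f : α → β) (p : β) :
    (l.map f).count p = (l.map (fun c => if f c = p then 1 else 0)).sum := by
  induction l with
  | nil => simp
  | cons a l ih =>
    rw [List.map_cons, List.count_cons, ih, List.map_cons, List.sum_cons, add_comm]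
    simp only [beq_iff_eq]

theorem count_starts {P : Type} [DecidableEq P] (D : Diagram P) (p : P) :
    D.starts.count p = (D.arcs.map (fun x => if x.1 = p then 1 else 0)).sum +
      (D.crossings.map (fun x => if (if x.underFwd then x.a else x.c) = p then 1 else 0)).sum +
      (D.crossings.map (fun x => if (if x.overFwd then x.b else x.d) = p then 1 else 0)).sum := by
  unfold Diagram.starts
  rw [List.count_append, List.count_append, count_map_sum, count_map_sum, count_map_sum]

theorem count_ends {P : Type} [DecidableEq P] (D : Diagram P) (p : P) :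
    D.ends.count p = (D.arcs.map (fun x => if x.2 = p then 1 else 0)).sum +
      (D.crossings.map (fun x => if (if x.underFwd then x.c else x.a) = p then 1 else 0)).sum +
      (D.crossings.map (fun x => if (if x.overFwd then x.d else x.b) = p then 1 else 0)).sum := by
  unfold Diagram.ends
  rw [List.count_append, List.count_append, count_map_sum, count_map_sum, count_map_sum]

theorem sum_map_finRange (f : Fin N → ℕ) : ((List.finRange N).map f).sum = ∑ c, f c :=
  (Fin.sum_univ_def f).symm

theorem sum_map_flatMap {α β : Type} (l : List α) (f : α → List β) (g : β → ℕ) :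
    ((l.flatMap f).map g).sum = (l.map (fun c => ((f c).map g).sum)).sum := by
  induction l with
  | nil => simp
  | cons a l ih =>
    rw [List.flatMap_cons, List.map_append, List.sum_append, ih, List.map_cons, List.sum_cons]

theorem sum_single (F : Fin N → Bool → ℕ) (c₀ : Fin N) (b₀ : Bool)
    (h : ∀ c b, F c b = if c = c₀ ∧ b = b₀ then 1 else 0) : ∑ c, (F c false + F c true) = 1 := by
  rw [Finset.sum_eq_single c₀]
  · rw [h, h]; cases b₀ <;> simp
  · intro c _ hc
    rw [h, h]; simp [hc]
  · intro h; exact absurd (Finset.mem_univ _) h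

theorem starts_count (G : JR.GaussWord N) (o w : Fin N → Bool) (p : JR.Half N) :
    (((gaussDiagram G o w).arcs.map (fun x => if x.1 = p then 1 else 0)).sum +
      ((gaussDiagram G o w).crossings.map
        (fun x => if (if x.underFwd then x.a else x.c) = p then 1 else 0)).sum +
      ((gaussDiagram G o w).crossings.map
        (fun x => if (if x.overFwd then x.b else x.d) = p then 1 else 0)).sum : ℕ) = 1 := by
  obtain ⟨⟨c₀, b₀⟩, e₀⟩ := p
  unfold gaussDiagram
  rw [sum_map_flatMap, List.map_map, List.map_map, sum_map_finRange, sum_map_finRange,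
    sum_map_finRange, ← Finset.sum_add_distrib, ← Finset.sum_add_distrib]
  refine Eq.trans (Finset.sum_congr rfl fun c _ => ?_) 
    (sum_single (fun c b => if c = c₀ ∧ b = b₀ then 1 else 0) c₀ b₀ fun c b => rfl)
  simp only [Function.comp]
  cases ho : o c <;> cases hw : w c <;> cases e₀ <;> cases b₀ <;>
    simp [gaussCrossing, eq_comm]

theorem ends_count (G : JR.GaussWord N) (o w : Fin N → Bool) (p : JR.Half N) :
    (((gaussDiagram G o w).arcs.map (fun x => if x.2 = p then 1 else 0)).sum +
      ((gaussDiagram G o w).crossings.map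
        (fun x => if (if x.underFwd then x.c else x.a) = p then 1 else 0)).sum +
      ((gaussDiagram G o w).crossings.map
        (fun x => if (if x.overFwd then x.d else x.b) = p then 1 else 0)).sum : ℕ) = 1 := by
  obtain ⟨⟨c₀, b₀⟩, e₀⟩ := p
  unfold gaussDiagram
  rw [sum_map_flatMap, List.map_map, List.map_map, sum_map_finRange, sum_map_finRange,
    sum_map_finRange]
  have h1 : ∑ c, (List.map (fun x : JR.Half N × JR.Half N => if x.2 = ((c₀, b₀), e₀) then 1 else 0)
      [(((c, false), true), (JR.next G (c, false), false)),
        (((c, true), true), (JR.next G (c, true), false))]).sum = if e₀ then 0 else 1 := by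
    cases e₀
    · have h2 : ∑ q : Fin N × Bool, (if JR.next G q = (c₀, b₀) then 1 else 0) = 1 := by
        rw [Equiv.sum_comp (JR.next G) (fun q => if q = (c₀, b₀) then 1 else 0)]
        simp
      rw [Fintype.sum_prod_type] at h2
      rw [if_neg (by simp)]
      refine Eq.trans (Finset.sum_congr rfl fun c _ => ?_) h2
      rw [Fintype.sum_bool]
      simp [add_comm]
    · simp
  rw [h1, add_assoc, ← Finset.sum_add_distrib]
  cases e₀
  · rw [if_neg (by simp), Nat.add_eq_left, Finset.sum_eq_zero]
    intro c _
    simp only [Function.comp]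
    cases ho : o c <;> cases hw : w c <;> simp [gaussCrossing]
  · rw [if_pos rfl, zero_add]
    refine Eq.trans (Finset.sum_congr rfl fun c _ => ?_) 
      (sum_single (fun c b => if c = c₀ ∧ b = b₀ then 1 else 0) c₀ b₀ fun c b => rfl)
    simp only [Function.comp]
    cases ho : o c <;> cases hw : w c <;> cases b₀ <;>
      simp [gaussCrossing, eq_comm]

theorem writhe_eq (G : JR.GaussWord N) (o w : Fin N → Bool) :
    (gaussDiagram G o w).writhe = JR.writhe w := by
  unfold Diagram.writhe JR.writhe gaussDiagram
  rw [Fin.sum_univ_def, List.map_map]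
  congr 1
  apply List.map_congr_left
  intro c _
  simp only [Function.comp]
  cases ho : o c <;> cases hw : w c <;> rfl

theorem length_eq (G : JR.GaussWord N) (o w : Fin N → Bool) :
    (gaussDiagram G o w).crossings.length = N := by
  simp [gaussDiagram]

/-- the states -/
def stateEquiv (G : JR.GaussWord N) (o w : Fin N → Bool) :
    (Fin (gaussDiagram G o w).crossings.length → Bool) ≃ (Fin N → Bool) :=
  (Equiv.arrowCongr (finCongr (length_eq G o w)) (Equiv.refl Bool)).trans
    (Equiv.piCongrRight fun c => if w c then Equiv.refl _ else Equiv.boolNot)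

theorem stateEquiv_apply (G : JR.GaussWord N) (o w : Fin N → Bool)
    (s : Fin (gaussDiagram G o w).crossings.length → Bool) 
    (i : Fin (gaussDiagram G o w).crossings.length) :
    stateEquiv G o w s (finCongr (length_eq G o w) i) =
      if w (finCongr (length_eq G o w) i) then s i else !(s i) := by
  unfold stateEquiv
  simp only [Equiv.trans_apply, Equiv.piCongrRight_apply, Pi.map_apply]
  split_ifs with h
  · simp
  · simp

theorem getElem_eq (G : JR.GaussWord N) (o w : Fin N → Bool)
    (i : Fin (gaussDiagram G o w).crossings.length) :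
    (gaussDiagram G o w).crossings[i] =
      gaussCrossing (finCongr (length_eq G o w) i) (o (finCongr (length_eq G o w) i))
        (w (finCongr (length_eq G o w) i)) := by
  have key : ∀ (l : List (Crossing (JR.Half N)))
      (_ : l = (List.finRange N).map (fun c => gaussCrossing c (o c) (w c))) (hl : l.length = N)
      (i : Fin l.length), l[i] = 
        gaussCrossing (finCongr hl i) (o (finCongr hl i)) (w (finCongr hl i)) := by
    rintro _ rfl hl i
    simp only [Fin.getElem_fin, List.getElem_map, List.getElem_finRange]
    rfl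
  exact key _ rfl _ i

theorem weight_eq (G : JR.GaussWord N) (o w : Fin N → Bool)
    (s : Fin (gaussDiagram G o w).crossings.length → Bool) :
    Diagram.weight s = JR.weight w (stateEquiv G o w s) := by
  unfold Diagram.weight JR.weight
  refine Fintype.sum_equiv (finCongr (length_eq G o w)) _ _ fun i => ?_
  rw [stateEquiv_apply]
  cases hw : w (finCongr (length_eq G o w) i) <;> cases hs : s i <;> simp [JR.sgn]

theorem mem_arcs (G : JR.GaussWord N) (o w : Fin N → Bool) (x y : JR.Half N) :
    (x, y) ∈ (gaussDiagram G o w).arcs ↔ ∃ p, x = (p, true) ∧ y = (JR.next G p, false) := by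
  simp only [gaussDiagram, List.mem_flatMap, List.mem_finRange, true_and, List.mem_cons,
    List.not_mem_nil, or_false, Prod.mk.injEq]
  constructor
  · rintro ⟨c, ⟨h1, h2⟩ | ⟨h1, h2⟩⟩
    · exact ⟨(c, false), h1, h2⟩
    · exact ⟨(c, true), h1, h2⟩
  · rintro ⟨⟨c, b⟩, h1, h2⟩
    cases b
    · exact ⟨c, Or.inl ⟨h1, h2⟩⟩
    · exact ⟨c, Or.inr ⟨h1, h2⟩⟩

theorem loops_eq (G : JR.GaussWord N) (o w : Fin N → Bool)
    (s : Fin (gaussDiagram G o w).crossings.length → Bool) :
    (gaussDiagram G o w).loops s = JR.loops G (stateEquiv G o w s) := by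
  unfold Diagram.loops JR.loops
  refine JR.card_quot_congr _ _ ?_ ?_
  · rintro x y (h | ⟨i, h⟩)
    · obtain ⟨p, hx, hy⟩ := (mem_arcs G o w x y).1 h
      exact Quot.sound (Or.inl ⟨p, hx, hy⟩)
    · have ht := stateEquiv_apply G o w s i
      have hc := getElem_eq G o w i
      rw [hc] at h
      revert ht h
      generalize finCongr (length_eq G o w) i = c
      intro h ht
      have a1 : stateEquiv G o w s c = true → ∀ b : Bool,
          Quot.mk (JR.Joined G (stateEquiv G o w s)) ((c, b), false) = Quot.mk _ ((c, !b), true) :=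
        fun h1 b => Quot.sound (Or.inr (Or.inl ⟨c, b, h1, rfl, rfl⟩))
      have a2 : stateEquiv G o w s c = false → ∀ e : Bool,
          Quot.mk (JR.Joined G (stateEquiv G o w s)) ((c, false), e) = Quot.mk _ ((c, true), e) :=
        fun h1 b => Quot.sound (Or.inr (Or.inr ⟨c, b, h1, rfl, rfl⟩))
      cases ho : o c <;> cases hw : w c <;> cases hs : s i <;> 
        simp only [ho, hw, hs, gaussCrossing, if_true, Bool.false_eq_true, if_false, Bool.not_true,
          Bool.not_false] at h ht <;>
        rcases h with ⟨rfl, rfl⟩ | ⟨rfl, rfl⟩ <;>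
        first
        | exact a1 ht true
        | exact a1 ht false
        | exact (a1 ht true).symm
        | exact (a1 ht false).symm
        | exact a2 ht _
        | exact (a2 ht _).symm
  · rintro x y (⟨p, hx, hy⟩ | ⟨c, b, h1, rfl, rfl⟩ | ⟨c, e, h1, rfl, rfl⟩)
    · exact Quot.sound (Or.inl ((mem_arcs G o w x y).2 ⟨p, hx, hy⟩))
    · obtain ⟨i, rfl⟩ := (finCongr (length_eq G o w)).surjective c
      have ht := stateEquiv_apply G o w s i
      have hc := getElem_eq G o w i
      rw [h1] at ht
      have a1 : ∀ x y, (if s i then (x = ((gaussDiagram G o w).crossings[i]).a ∧ y = ((gaussDiagram G o w).crossings[i]).b) ∨ 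
          (x = ((gaussDiagram G o w).crossings[i]).c ∧ y = ((gaussDiagram G o w).crossings[i]).d)
        else (x = ((gaussDiagram G o w).crossings[i]).b ∧ y = ((gaussDiagram G o w).crossings[i]).c) ∨ 
          (x = ((gaussDiagram G o w).crossings[i]).d ∧ y = ((gaussDiagram G o w).crossings[i]).a)) →
          Quot.mk ((gaussDiagram G o w).Joined s) x = Quot.mk _ y := 
        fun x y h => Quot.sound (Or.inr ⟨i, h⟩)
      rw [hc] at a1
      revert ht a1
      generalize finCongr (length_eq G o w) i = c
      intro ht a1
      cases b <;> cases ho : o c <;> cases hw : w c <;> cases hs : s i <;> 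
        simp only [ho, hw, hs, gaussCrossing, if_true, Bool.false_eq_true, if_false, Bool.not_true,
          Bool.not_false, reduceCtorEq] at a1 ht <;>
        first
        | exact a1 _ _ (Or.inl ⟨rfl, rfl⟩)
        | exact a1 _ _ (Or.inr ⟨rfl, rfl⟩)
        | exact (a1 _ _ (Or.inl ⟨rfl, rfl⟩)).symm
        | exact (a1 _ _ (Or.inr ⟨rfl, rfl⟩)).symm
    · obtain ⟨i, rfl⟩ := (finCongr (length_eq G o w)).surjective c
      have ht := stateEquiv_apply G o w s i
      have hc := getElem_eq G o w i
      rw [h1] at ht
      have a1 : ∀ x y, (if s i then (x = ((gaussDiagram G o w).crossings[i]).a ∧ y = ((gaussDiagram G o w).crossings[i]).b) ∨ 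
          (x = ((gaussDiagram G o w).crossings[i]).c ∧ y = ((gaussDiagram G o w).crossings[i]).d)
        else (x = ((gaussDiagram G o w).crossings[i]).b ∧ y = ((gaussDiagram G o w).crossings[i]).c) ∨ 
          (x = ((gaussDiagram G o w).crossings[i]).d ∧ y = ((gaussDiagram G o w).crossings[i]).a)) →
          Quot.mk ((gaussDiagram G o w).Joined s) x = Quot.mk _ y := 
        fun x y h => Quot.sound (Or.inr ⟨i, h⟩)
      rw [hc] at a1
      revert ht a1
      generalize finCongr (length_eq G o w) i = c
      intro ht a1
      cases e <;> cases ho : o c <;> cases hw : w c <;> cases hs : s i <;> 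
        simp only [ho, hw, hs, gaussCrossing, if_true, Bool.false_eq_true, if_false, Bool.not_true,
          Bool.not_false, reduceCtorEq] at a1 ht <;>
        first
        | exact a1 _ _ (Or.inl ⟨rfl, rfl⟩)
        | exact a1 _ _ (Or.inr ⟨rfl, rfl⟩)
        | exact (a1 _ _ (Or.inl ⟨rfl, rfl⟩)).symm
        | exact (a1 _ _ (Or.inr ⟨rfl, rfl⟩)).symm

theorem bracket_eq (G : JR.GaussWord N) (o w : Fin N → Bool) :
    (gaussDiagram G o w).bracket = JR.bracket G w := by
  unfold Diagram.bracket JR.bracket
  refine Fintype.sum_equiv (stateEquiv G o w) _ _ fun s => ?_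
  rw [weight_eq, loops_eq]

end G1

theorem gauss_isClosed (G : JR.GaussWord N) (o w : Fin N → Bool) :
    (gaussDiagram G o w).IsClosed := by
  intro p
  rw [G1.count_starts, G1.count_ends]
  exact ⟨G1.starts_count G o w p, G1.ends_count G o w p⟩

theorem fPoly_gauss (G : JR.GaussWord N) (o w : Fin N → Bool) :
    (gaussDiagram G o w).fPoly = JR.fPoly G w := by
  unfold Diagram.fPoly JR.fPoly
  rw [G1.writhe_eq, G1.bracket_eq]

end Pool.Agent.H832R3.VJ
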