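import Pool.Agent.H832R3.VJ.V6

set_option autoImplicit false

/-! Divisibility for diagrams with double points. -/

namespace Pool.Agent.H832R3.VJ

open Finset LaurentPolynomial Pool.Agent.H891R2.Jones Pool.Agent.H891R2.MT

namespace V6b

theorem sign_cases {P : Type} (x : Crossing P) : x.sign = 1 ∨ x.sign = -1 := by
  unfold Crossing.sign
  split_ifs
  · exact Or.inr rfl
  · exact Or.inl rfl

theorem fPoly_congr {P : Type} (arcs arcs' : List (P × P)) (cr cr' : List (Crossing P))
    (h : ∀ p q, ((p, q) ∈ arcs ∨ (q, p) ∈ arcs) ↔ ((p, q) ∈ arcs' ∨ (q, p) ∈ arcs'))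
    (h' : cr.Perm cr') :
    (⟨arcs, cr⟩ : Diagram P).fPoly = (⟨arcs', cr'⟩ : Diagram P).fPoly := by
  have hw : (⟨arcs, cr⟩ : Diagram P).writhe = (⟨arcs', cr'⟩ : Diagram P).writhe :=
    (h'.map Crossing.sign).sum_eq
  unfold Diagram.fPoly
  rw [hw, bracket_congr arcs arcs' cr cr' h h']

theorem fPoly_cons {P : Type} (arcs : List (P × P)) (x : Crossing P) (cr : List (Crossing P)) :
    (⟨arcs, x :: cr⟩ : Diagram P).fPoly =
      -T (-3 * x.sign) * (T 1 * (⟨(x.a, x.b) :: (x.c, x.d) :: arcs, cr⟩ : Diagram P).fPoly +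
      T (-1) * (⟨(x.b, x.c) :: (x.d, x.a) :: arcs, cr⟩ : Diagram P).fPoly) := by
  have hw : (⟨arcs, x :: cr⟩ : Diagram P).writhe = x.sign + (⟨arcs, cr⟩ : Diagram P).writhe := by
    unfold Diagram.writhe
    simp
  have hw1 : (⟨(x.a, x.b) :: (x.c, x.d) :: arcs, cr⟩ : Diagram P).writhe =
      (⟨arcs, cr⟩ : Diagram P).writhe := rfl
  have hw2 : (⟨(x.b, x.c) :: (x.d, x.a) :: arcs, cr⟩ : Diagram P).writhe =
      (⟨arcs, cr⟩ : Diagram P).writhe := rfl
  unfold Diagram.fPoly
  rw [hw, hw1, hw2, bracket_cons]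
  set w := (⟨arcs, cr⟩ : Diagram P).writhe with hwd
  have hpar : (if Even (x.sign + w) then (1 : ℤ[T;T⁻¹]) else -1) =
      -(if Even w then (1 : ℤ[T;T⁻¹]) else -1) := by
    rcases sign_cases x with hs | hs
    · rw [hs]
      by_cases hev : Even w
      · rw [if_neg (fun h => (Int.not_odd_iff_even.2 hev) ((Int.even_add'.1 h).1 (by decide))), if_pos hev]
      · rw [if_pos (Int.even_add'.2 ⟨fun _ => Int.not_even_iff_odd.1 hev, fun _ => by decide⟩), if_neg hev]
        simp
    · rw [hs]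
      by_cases hev : Even w
      · rw [if_neg (fun h => (Int.not_odd_iff_even.2 hev) ((Int.even_add'.1 h).1 (by decide))), if_pos hev]
      · rw [if_pos (Int.even_add'.2 ⟨fun _ => Int.not_even_iff_odd.1 hev, fun _ => by decide⟩), if_neg hev]
        simp
  rw [hpar, mul_add (-3 : ℤ), T_add]
  ring

theorem singF_congr {P : Type} (l : List (Crossing P)) : ∀ (arcs arcs' : List (P × P))
    (cr cr' : List (Crossing P))
    (_ : ∀ p q, ((p, q) ∈ arcs ∨ (q, p) ∈ arcs) ↔ ((p, q) ∈ arcs' ∨ (q, p) ∈ arcs'))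
    (_ : cr.Perm cr'), singF arcs cr l = singF arcs' cr' l := by
  induction l with
  | nil => intro arcs arcs' cr cr' h h'; exact fPoly_congr arcs arcs' cr cr' h h'
  | cons x l ih =>
    intro arcs arcs' cr cr' h h'
    show singF arcs (positive x :: cr) l - singF arcs (negative x :: cr) l =
      singF arcs' (positive x :: cr') l - singF arcs' (negative x :: cr') l
    rw [ih arcs arcs' _ _ h (h'.cons _), ih arcs arcs' _ _ h (h'.cons _)]

theorem singF_cons {P : Type} (l : List (Crossing P)) : ∀ (arcs : List (P × P))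
    (x : Crossing P) (cr : List (Crossing P)),
    singF arcs (x :: cr) l =
      -T (-3 * x.sign) * (T 1 * singF ((x.a, x.b) :: (x.c, x.d) :: arcs) cr l +
      T (-1) * singF ((x.b, x.c) :: (x.d, x.a) :: arcs) cr l) := by
  induction l with
  | nil => intro arcs x cr; exact fPoly_cons arcs x cr
  | cons y l ih =>
    intro arcs x cr
    show singF arcs (positive y :: x :: cr) l - singF arcs (negative y :: x :: cr) l =
      -T (-3 * x.sign) * (T 1 * (singF ((x.a, x.b) :: (x.c, x.d) :: arcs) (positive y :: cr) l -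
        singF ((x.a, x.b) :: (x.c, x.d) :: arcs) (negative y :: cr) l) +
      T (-1) * (singF ((x.b, x.c) :: (x.d, x.a) :: arcs) (positive y :: cr) l -
        singF ((x.b, x.c) :: (x.d, x.a) :: arcs) (negative y :: cr) l))
    rw [singF_congr l arcs arcs (positive y :: x :: cr) (x :: positive y :: cr)
      (fun _ _ => Iff.rfl) (List.Perm.swap _ _ _),
      singF_congr l arcs arcs (negative y :: x :: cr) (x :: negative y :: cr)
      (fun _ _ => Iff.rfl) (List.Perm.swap _ _ _), ih arcs x, ih arcs x]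
    ring

theorem diff_dvd (GA GB : ℤ[T;T⁻¹]) (k : ℕ) (hA : (T 1 - 1 : ℤ[T;T⁻¹]) ^ k ∣ GA)
    (hB : (T 1 - 1 : ℤ[T;T⁻¹]) ^ k ∣ GB) :
    (T 1 - 1 : ℤ[T;T⁻¹]) ^ (k + 1) ∣
      -T (-3) * (T 1 * GA + T (-1) * GB) - -T 3 * (T 1 * GB + T (-1) * GA) := by
  have h1 : (T 1 - 1 : ℤ[T;T⁻¹]) ∣ T 2 - T (-2) := by
    refine ⟨T (-2) * (T 3 + T 2 + T 1 + 1), ?_⟩
    have e : (T 1 - 1 : ℤ[T;T⁻¹]) * (T (-2) * (T 3 + T 2 + T 1 + 1)) =
        T 1 * T (-2) * T 3 + T 1 * T (-2) * T 2 + T 1 * T (-2) * T 1 + T 1 * T (-2)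
        - T (-2) * T 3 - T (-2) * T 2 - T (-2) * T 1 - T (-2) := by ring
    rw [e]
    simp only [← T_add]
    norm_num
    ring
  have h2 : (T 1 - 1 : ℤ[T;T⁻¹]) ∣ T 4 - T (-4) := by
    have e : (T 4 - T (-4) : ℤ[T;T⁻¹]) = (T 2 - T (-2)) * (T 2 + T (-2)) := by
      have e' : (T 2 - T (-2) : ℤ[T;T⁻¹]) * (T 2 + T (-2)) =
        T 2 * T 2 + T 2 * T (-2) - T (-2) * T 2 - T (-2) * T (-2) := by ring
      rw [e']
      simp only [← T_add]
      norm_num
    rw [e]
    exact h1.mul_right _
  have h3 : -T (-3) * (T 1 * GA + T (-1) * GB) - -T 3 * (T 1 * GB + T (-1) * GA) =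
      (T 2 - T (-2)) * GA + (T 4 - T (-4)) * GB := by
    have e : -T (-3) * (T 1 * GA + T (-1) * GB) - -T 3 * (T 1 * GB + T (-1) * GA) =
        (T 3 * T (-1) - T (-3) * T 1) * GA + (T 3 * T 1 - T (-3) * T (-1)) * GB := by ring
    rw [e]
    simp only [← T_add]
    norm_num
  rw [h3, pow_succ']
  exact dvd_add (mul_dvd_mul h1 hA) (mul_dvd_mul h2 hB)

end V6b

theorem singF_dvd {P : Type} (arcs : List (P × P)) (cr l : List (Crossing P)) :
    (T 1 - 1 : ℤ[T;T⁻¹]) ^ l.length ∣ singF arcs cr l := by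
  induction l generalizing arcs cr with
  | nil => simp
  | cons x l ih =>
    show (T 1 - 1 : ℤ[T;T⁻¹]) ^ (l.length + 1) ∣
      singF arcs (positive x :: cr) l - singF arcs (negative x :: cr) l
    have hsw : (switch x).sign = -x.sign := by
      unfold switch Crossing.sign
      cases x.overFwd <;> cases x.underFwd <;> simp
    rw [V6b.singF_cons l arcs (positive x) cr, V6b.singF_cons l arcs (negative x) cr]
    rcases V6b.sign_cases x with hs | hs
    · have hp : positive x = x := by unfold positive; rw [if_pos hs]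
      have hn : negative x = switch x := by unfold negative; rw [if_pos hs]
      rw [hp, hn, hsw, hs]
      have e1 : singF (((switch x).a, (switch x).b) :: ((switch x).c, (switch x).d) :: arcs) cr l =
          singF ((x.b, x.c) :: (x.d, x.a) :: arcs) cr l := rfl
      have e2 : singF (((switch x).b, (switch x).c) :: ((switch x).d, (switch x).a) :: arcs) cr l =
          singF ((x.a, x.b) :: (x.c, x.d) :: arcs) cr l := by
        apply V6b.singF_congr
        · intro p q
          show ((p, q) ∈ (x.c, x.d) :: (x.a, x.b) :: arcs ∨ (q, p) ∈ (x.c, x.d) :: (x.a, x.b) :: arcs) ↔ _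
          simp only [List.mem_cons]
          tauto
        · exact List.Perm.refl _
      rw [e1, e2]
      exact V6b.diff_dvd _ _ _ (ih _ _) (ih _ _)
    · have h1 : ¬ x.sign = 1 := by rw [hs]; decide
      have hp : positive x = switch x := by unfold positive; rw [if_neg h1]
      have hn : negative x = x := by unfold negative; rw [if_neg h1]
      rw [hp, hn, hsw, hs]
      have e1 : singF (((switch x).a, (switch x).b) :: ((switch x).c, (switch x).d) :: arcs) cr l =
          singF ((x.b, x.c) :: (x.d, x.a) :: arcs) cr l := rfl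
      have e2 : singF (((switch x).b, (switch x).c) :: ((switch x).d, (switch x).a) :: arcs) cr l =
          singF ((x.a, x.b) :: (x.c, x.d) :: arcs) cr l := by
        apply V6b.singF_congr
        · intro p q
          show ((p, q) ∈ (x.c, x.d) :: (x.a, x.b) :: arcs ∨ (q, p) ∈ (x.c, x.d) :: (x.a, x.b) :: arcs) ↔ _
          simp only [List.mem_cons]
          tauto
        · exact List.Perm.refl _
      rw [e1, e2]
      exact V6b.diff_dvd _ _ _ (ih _ _) (ih _ _)

end Pool.Agent.H832R3.VJ
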