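import Pool.Agent.H832R3.VJ.Defs2

set_option autoImplicit false

/-! Moments. -/

namespace Pool.Agent.H832R3.VJ

open Finset LaurentPolynomial Pool.Agent.H891R2.Jones Pool.Agent.H891R2.MT

theorem moment_add (j : ℕ) (F G : ℤ[T;T⁻¹]) : moment j (F + G) = moment j F + moment j G := by
  unfold moment
  rw [AddMonoidAlgebra.coeff_add, Finsupp.sum_add_index']
  · intro k; simp
  · intro k a b; ring

namespace V7

noncomputable def momH (j : ℕ) : ℤ[T;T⁻¹] →+ ℤ where
  toFun := moment j
  map_zero' := by
    unfold moment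
    rw [AddMonoidAlgebra.coeff_zero, Finsupp.sum_zero_index]
  map_add' := moment_add j

theorem momH_apply (j : ℕ) (F : ℤ[T;T⁻¹]) : momH j F = moment j F := rfl

theorem moment_term (j : ℕ) (n : ℤ) (a : ℤ) : moment j (C a * T n) = a * n ^ j := by
  unfold moment
  rw [← single_eq_C_mul_T, AddMonoidAlgebra.coeff_single, Finsupp.sum_single_index]
  simp

theorem moment_T_mul (j : ℕ) (m : ℤ) (F : ℤ[T;T⁻¹]) :
    moment j (T m * F) = ∑ i ∈ range (j + 1), (j.choose i : ℤ) * m ^ (j - i) * moment i F := by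
  induction F using LaurentPolynomial.induction_on' with
  | add p q hp hq =>
    rw [mul_add, moment_add, hp, hq, ← Finset.sum_add_distrib]
    refine Finset.sum_congr rfl fun i _ => ?_
    rw [moment_add]
    ring
  | C_mul_T n a =>
    have h1 : T m * (C a * T n) = C a * T (n + m) := by
      rw [T_add]; ring
    rw [h1, moment_term, add_pow, Finset.mul_sum]
    refine Finset.sum_congr rfl fun i _ => ?_
    rw [moment_term]
    ring

theorem moment_C_mul (j : ℕ) (a : ℤ) (F : ℤ[T;T⁻¹]) : moment j (C a * F) = a * moment j F := by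
  induction F using LaurentPolynomial.induction_on' with
  | add p q hp hq => rw [mul_add, moment_add, hp, hq, moment_add]; ring
  | C_mul_T n b =>
    have h1 : C a * (C b * T n) = C (a * b) * T n := by
      rw [map_mul]; ring
    rw [h1, moment_term, moment_term]; ring

theorem moment_pow_mul (m : ℕ) (G : ℤ[T;T⁻¹]) :
    ∀ j < m, moment j ((T 1 - 1 : ℤ[T;T⁻¹]) ^ m * G) = 0 := by
  induction m with
  | zero => intro j hj; exact absurd hj (Nat.not_lt_zero _)
  | succ m ih =>
    intro j hj
    have h1 : (T 1 - 1 : ℤ[T;T⁻¹]) ^ (m + 1) * G =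
        T 1 * ((T 1 - 1 : ℤ[T;T⁻¹]) ^ m * G) - (T 1 - 1 : ℤ[T;T⁻¹]) ^ m * G := by ring
    rw [h1, ← momH_apply, map_sub, momH_apply, momH_apply, moment_T_mul, Finset.sum_range_succ]
    rw [Finset.sum_eq_zero]
    · simp
    · intro i hi
      rw [Finset.mem_range] at hi
      rw [ih i (by omega), mul_zero]

theorem moment_mul_zero (M : ℕ) (F G : ℤ[T;T⁻¹]) (h : ∀ j < M, moment j F = 0) :
    ∀ j < M, moment j (G * F) = 0 := by
  induction G using LaurentPolynomial.induction_on' with
  | add p q hp hq =>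
    intro j hj
    rw [add_mul, moment_add, hp j hj, hq j hj, add_zero]
  | C_mul_T n a =>
    intro j hj
    rw [mul_assoc, moment_C_mul, moment_T_mul, Finset.sum_eq_zero, mul_zero]
    intro i hi
    rw [Finset.mem_range] at hi
    rw [h i (by omega), mul_zero]

theorem eval_zero (M : ℕ) (H : ℤ[T;T⁻¹]) (h : ∀ j < M, moment j H = 0) (p : Polynomial ℤ)
    (hp : p.degree < M) : (H.coeff.sum fun k c => c * p.eval k) = 0 := by
  have h1 : ∀ k : ℤ, p.eval k = ∑ j ∈ range M, p.coeff j * k ^ j := by
    intro k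
    by_cases h0 : p = 0
    · simp [h0]
    · rw [Polynomial.eval_eq_sum_range' (n := M)]
      exact (Polynomial.natDegree_lt_iff_degree_lt h0).2 hp
  have h2 : (H.coeff.sum fun k c => c * p.eval k) =
      ∑ j ∈ range M, p.coeff j * moment j H := by
    unfold moment Finsupp.sum
    simp only [Finset.mul_sum]
    rw [Finset.sum_comm]
    refine Finset.sum_congr rfl fun k _ => ?_
    rw [h1, Finset.mul_sum]
    refine Finset.sum_congr rfl fun j _ => ?_
    ring
  rw [h2]
  refine Finset.sum_eq_zero fun j hj => ?_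
  rw [h j (Finset.mem_range.1 hj), mul_zero]

end V7

open V7

theorem moment_sub (j : ℕ) (F G : ℤ[T;T⁻¹]) : moment j (F - G) = moment j F - moment j G := by
  rw [← momH_apply, map_sub, momH_apply, momH_apply]

theorem moment_of_dvd (n : ℕ) (F : ℤ[T;T⁻¹]) (h : (T 1 - 1 : ℤ[T;T⁻¹]) ^ (n + 1) ∣ F) :
    moment n F = 0 := by
  obtain ⟨G, rfl⟩ := h
  exact moment_pow_mul (n + 1) G n (Nat.lt_succ_self n)

/-- a Laurent polynomial with few terms and vanishing first moments vanishes; also after
multiplication by a factor -/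
theorem eq_zero_of_moment (M : ℕ) (F G : ℤ[T;T⁻¹]) (hG : (G * F).coeff.support.card ≤ M)
    (h : ∀ j < M, moment j F = 0) : G * F = 0 := by
  have h1 := moment_mul_zero M F G h
  set H := G * F with hH
  by_contra hne
  have hne' : H.coeff ≠ 0 := fun hc => hne (AddMonoidAlgebra.coeff_eq_zero.1 hc)
  obtain ⟨k0, hk0⟩ := Finsupp.support_nonempty_iff.2 hne'
  set p : Polynomial ℤ := ∏ k ∈ H.coeff.support.erase k0, (Polynomial.X - Polynomial.C k) with hp
  have hdeg : p.degree < M := by
    rw [hp, Polynomial.degree_prod]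
    simp only [Polynomial.degree_X_sub_C, Finset.sum_const, Finset.card_erase_of_mem hk0]
    have h2 : 0 < H.coeff.support.card := Finset.card_pos.2 ⟨k0, hk0⟩
    rw [nsmul_eq_mul, mul_one]
    exact_mod_cast (show H.coeff.support.card - 1 < M by omega)
  have h3 := eval_zero M H h1 p hdeg
  unfold Finsupp.sum at h3
  rw [Finset.sum_eq_single k0] at h3
  · rcases mul_eq_zero.1 h3 with h4 | h4
    · exact (Finsupp.mem_support_iff.1 hk0) h4
    · rw [hp, Polynomial.eval_prod, Finset.prod_eq_zero_iff] at h4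
      obtain ⟨k, hk, hk'⟩ := h4
      rw [Polynomial.eval_sub, Polynomial.eval_X, Polynomial.eval_C, sub_eq_zero] at hk'
      exact (Finset.mem_erase.1 hk).1 hk'.symm
  · intro k hk hkk
    simp only
    rw [hp, Polynomial.eval_prod, Finset.prod_eq_zero (Finset.mem_erase.2 ⟨hkk, hk⟩), mul_zero]
    simp
  · intro hk
    exact absurd hk0 hk

end Pool.Agent.H832R3.VJ
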