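import Pool.Agent.H832R3.VJ.V5
import Pool.Agent.H832R3.VJ.V6b
import Pool.Agent.H832R3.VJ.V7

set_option autoImplicit false

/-! Vassiliev invariants from the normalised bracket. -/

namespace Pool.Agent.H832R3.VJ

open Finset LaurentPolynomial Pool.Agent.H891R2.Jones Pool.Agent.H891R2.MT

private theorem sing_moment (n : ℕ) {P : Type} (hP : Finite P) (arcs : List (P × P))
    (l : List (Crossing P)) : ∀ cr : List (Crossing P),
    sing (fun X => moment n X.D.fPoly) hP arcs cr l = moment n (singF arcs cr l) := by
  induction l with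
  | nil => intro cr; rfl
  | cons x l ih =>
    intro cr
    simp only [sing, singF, moment_sub, ih]

theorem isVassiliev_moment (n : ℕ) : IsVassiliev n (fun X => moment n X.D.fPoly) := by
  refine ⟨fun X Y hX hY h => ?_, fun P hP arcs cr l hl _ => ?_⟩
  · show moment n X.D.fPoly = moment n Y.D.fPoly
    rw [fPoly_move X Y hX hY h]
  · rw [sing_moment]
    apply moment_of_dvd
    have := singF_dvd arcs cr l
    rwa [hl] at this

/-- the bridge: diagrams with different `fPoly` are separated, with a bound on the order -/
theorem separated_of_ne (M : ℕ) (X Y : Dia) (G : ℤ[T;T⁻¹]) (hG : G ≠ 0)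
    (hM : (G * (X.D.fPoly - Y.D.fPoly)).coeff.support.card ≤ M) (h : X.D.fPoly ≠ Y.D.fPoly) :
    Separated (M - 1) X Y := by
  by_contra hs
  have h0 : G * (X.D.fPoly - Y.D.fPoly) = 0 := by
    apply eq_zero_of_moment M _ _ hM
    intro j hj
    by_contra hne
    apply hs
    refine ⟨j, by omega, fun X => moment j X.D.fPoly, isVassiliev_moment j, ?_⟩
    intro he
    apply hne
    rw [moment_sub]
    exact sub_eq_zero.mpr he
  exact mul_ne_zero hG (sub_ne_zero.mpr h) h0

end Pool.Agent.H832R3.VJ
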