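import Pool.Agent.H832R3.VJ.G1
import Pool.Agent.H832R3.VJ.V8
import Pool.Agent.H832R2.JR.Matching
import Pool.Agent.H832R2.JR.Classes

set_option autoImplicit false

/-! Random crossings and invariants of order two. -/

namespace Pool.Agent.H832R3.VJ

open Finset LaurentPolynomial Pool.Agent.H891R2.Jones Pool.Agent.H832R2 Pool.Agent.H832R2.JR

variable {N : ℕ}

theorem moment_T (j : ℕ) (k : ℤ) : moment j (T k) = k ^ j := by
  unfold moment
  have h : (T k : ℤ[T;T⁻¹]).coeff = Finsupp.single k 1 := rfl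
  rw [h, Finsupp.sum_single_index (by simp), one_mul]

theorem rho_moment (F : ℤ[T;T⁻¹]) : JR.rho F 0 2 = moment 2 F := by
  induction F using LaurentPolynomial.induction_on' with
  | add p q hp hq => rw [map_add, Matrix.add_apply, hp, hq, moment_add]
  | C_mul_T n a =>
    have h1 : (C a * T n : ℤ[T;T⁻¹]) = a • T n := by rw [LaurentPolynomial.smul_eq_C_mul]
    have h2 : moment 2 (a • T n : ℤ[T;T⁻¹]) = a * n ^ 2 := by
      unfold moment
      have h : (a • T n : ℤ[T;T⁻¹]).coeff = Finsupp.single n a := by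
        rw [AddMonoidAlgebra.coeff_smul]
        have h3 : (T n : ℤ[T;T⁻¹]).coeff = Finsupp.single n 1 := rfl
        rw [h3, Finsupp.smul_single, smul_eq_mul, mul_one]
      rw [h, Finsupp.sum_single_index (by simp)]
    rw [h1, map_smul, JR.rho_T, h2]
    unfold JR.mmat
    simp

/-- the diagrams which are not separated from `E` by invariants of order at most two -/
theorem random (G : JR.GaussWord N) (o : Fin N → Bool) (E : Dia) :
    (∀ (m : ℕ) (u v : Fin m → Fin N), JR.IsMatching G u v →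
      (Nat.card {w : Fin N → Bool // ¬ Separated 2 (gaussDia G o w) E} : ℝ) * (m : ℝ) ^ (1 / 8 : ℝ) ≤
        4 * 2 ^ N) ∧
    (Nat.card {w : Fin N → Bool // ¬ Separated 2 (gaussDia G o w) E} : ℝ) *
      (JR.classes G : ℝ) ^ (1 / 8 : ℝ) ≤ 6 * 2 ^ N := by
  classical
  have hsep : ∀ w, ¬ Separated 2 (gaussDia G o w) E →
      moment 2 (JR.fPoly G w) = moment 2 E.D.fPoly := by
    intro w hw
    by_contra hne
    apply hw
    refine ⟨2, le_rfl, _, isVassiliev_moment 2, ?_⟩
    show moment 2 (gaussDiagram G o w).fPoly ≠ moment 2 E.D.fPoly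
    rw [fPoly_gauss]
    exact hne
  have h1 : ∀ (m : ℕ) (u v : Fin m → Fin N), JR.IsMatching G u v →
      (Nat.card {w : Fin N → Bool // ¬ Separated 2 (gaussDia G o w) E} : ℝ) *
        (m : ℝ) ^ (1 / 8 : ℝ) ≤ 4 * 2 ^ N := by
    rintro m u v ⟨hu, hv, huv, hc⟩
    rcases Nat.eq_zero_or_pos m with rfl | hm
    · rw [Nat.cast_zero, Real.zero_rpow (by norm_num), mul_zero]
      positivity
    · obtain ⟨K, hK⟩ := JR.second_moment G (u ⟨0, hm⟩)
      have hdiag : ∀ k, JR.adjm G (u k) (v k) ≠ 0 := by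
        intro k
        unfold JR.adjm
        rw [if_pos (hc k)]
        exact one_ne_zero
      by_cases hne : ∃ w₀ : Fin N → Bool, ¬ Separated 2 (gaussDia G o w₀) E
      · obtain ⟨w₀, hw₀⟩ := hne
        have h2 := JR.matching_bound' (JR.adjm G) (JR.adjm_symm G) u v hu hv huv hdiag
          (JR.Q (JR.adjm G) w₀)
        refine le_trans ?_ h2
        have h3 : (Nat.card {w : Fin N → Bool // ¬ Separated 2 (gaussDia G o w) E} : ℝ) ≤
            ((Finset.univ.filter fun w => JR.Q (JR.adjm G) w = JR.Q (JR.adjm G) w₀).card : ℝ) := by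
          rw [Nat.card_eq_fintype_card, Fintype.card_subtype]
          refine Nat.cast_le.2 (Finset.card_le_card fun w hw => ?_)
          rw [Finset.mem_filter] at hw ⊢
          refine ⟨hw.1, ?_⟩
          have e1 := hK w
          have e2 := hK w₀
          rw [rho_moment, hsep w hw.2] at e1
          rw [rho_moment, hsep w₀ hw₀] at e2
          linarith
        gcongr
      · have h4 : IsEmpty {w : Fin N → Bool // ¬ Separated 2 (gaussDia G o w) E} :=
          ⟨fun w => hne ⟨w.1, w.2⟩⟩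
        rw [Nat.card_eq_zero.2 (Or.inl h4), Nat.cast_zero, zero_mul]
        positivity
  refine ⟨h1, ?_⟩
  obtain ⟨m, u, v, huv, hmax⟩ := JR.exists_maximal G
  have h2 := h1 m u v huv
  have h3 := JR.classes_le G u v hmax
  have h4 : (JR.classes G : ℝ) ^ (1 / 8 : ℝ) ≤ 1.5 * (m : ℝ) ^ (1 / 8 : ℝ) := by
    have h5 : (JR.classes G : ℝ) ≤ 10 * (m : ℝ) := by exact_mod_cast h3
    calc (JR.classes G : ℝ) ^ (1 / 8 : ℝ) ≤ (10 * (m : ℝ)) ^ (1 / 8 : ℝ) :=
          Real.rpow_le_rpow (by positivity) h5 (by norm_num)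
      _ = 10 ^ (1 / 8 : ℝ) * (m : ℝ) ^ (1 / 8 : ℝ) :=
          Real.mul_rpow (by norm_num) (by positivity)
      _ ≤ 1.5 * (m : ℝ) ^ (1 / 8 : ℝ) := by
          gcongr
          have h6 : (10 : ℝ) ≤ 1.5 ^ (8 : ℕ) := by norm_num
          calc (10 : ℝ) ^ (1 / 8 : ℝ) ≤ ((1.5 : ℝ) ^ (8 : ℕ)) ^ (1 / 8 : ℝ) :=
                Real.rpow_le_rpow (by norm_num) h6 (by norm_num)
            _ = 1.5 := by
                rw [← Real.rpow_natCast, ← Real.rpow_mul (by norm_num)]
                norm_num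
  calc (Nat.card {w : Fin N → Bool // ¬ Separated 2 (gaussDia G o w) E} : ℝ) *
        (JR.classes G : ℝ) ^ (1 / 8 : ℝ)
      ≤ (Nat.card {w : Fin N → Bool // ¬ Separated 2 (gaussDia G o w) E} : ℝ) *
        (1.5 * (m : ℝ) ^ (1 / 8 : ℝ)) := by
        gcongr
    _ = 1.5 * ((Nat.card {w : Fin N → Bool // ¬ Separated 2 (gaussDia G o w) E} : ℝ) *
        (m : ℝ) ^ (1 / 8 : ℝ)) := by
        ring
    _ ≤ 1.5 * (4 * 2 ^ N) := by gcongr
    _ = 6 * 2 ^ N := by ring

end Pool.Agent.H832R3.VJ
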