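import Pool.Agent.H832R3.VJ.Defs
import Pool.Agent.H832R2.JR.Defs

set_option autoImplicit false

/-!
Diagrams of knots with a given shadow.  `JR.GaussWord N` (in `Pool.Agent.H832R2.JR.Defs`) describes
a closed curve with `N` double points; `JR.Half N` is the set of the `4 N` half edges.
-/

namespace Pool.Agent.H832R3.VJ

open Finset LaurentPolynomial Pool.Agent.H891R2.Jones Pool.Agent.H832R2

variable {N : ℕ}

/-- The crossing number `c` of the knot diagram: the marked points `((c, b), false)` and
`((c, b), true)` are the begin and the end of the passage `(c, b)` of the crossing.  `o = true`: the
passage `(c, true)` crosses the passage `(c, false)` from the right to the left (`o = false`: from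
the left to the right).  `w = true`: the crossing is positive (`w = false`: negative). -/
def gaussCrossing (c : Fin N) (o w : Bool) : Crossing (JR.Half N) :=
  match o, w with
  | true, true => ⟨((c, true), false), ((c, false), true), ((c, true), true), ((c, false), false),
      true, false⟩
  | true, false => ⟨((c, false), false), ((c, true), false), ((c, false), true), ((c, true), true),
      true, true⟩
  | false, true => ⟨((c, false), false), ((c, true), true), ((c, false), true), ((c, true), false),
      true, false⟩
  | false, false => ⟨((c, true), false), ((c, false), false), ((c, true), true),
      ((c, false), true), true, true⟩

/-- The oriented knot diagram with shadow `G` (the local directions of crossing being given by `o`)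
and crossing signs `w`: it has an arc from the end of every passage to the begin of the next one. -/
def gaussDiagram (G : JR.GaussWord N) (o w : Fin N → Bool) : Diagram (JR.Half N) where
  arcs := (List.finRange N).flatMap (fun c =>
    [(((c, false), true), (JR.next G (c, false), false)),
     (((c, true), true), (JR.next G (c, true), false))])
  crossings := (List.finRange N).map (fun c => gaussCrossing c (o c) (w c))

/-- the same with the finite set of marked points -/
def gaussDia (G : JR.GaussWord N) (o w : Fin N → Bool) : Dia :=
  ⟨JR.Half N, inferInstance, gaussDiagram G o w⟩

end Pool.Agent.H832R3.VJ
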