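import Pool.Agent.H832R3.VJ.Defs2

set_option autoImplicit false

/-! Evaluation of the normalised bracket. -/

namespace Pool.Agent.H832R3.VJ

open Finset LaurentPolynomial Pool.Agent.H891R2.Jones Pool.Agent.H891R2.MT

theorem prod_nW {P : Type} {N : ℕ} {A : ℂ} (hA : A ≠ 0) (col : P → Fin N)
    (l : List (Crossing P)) : (l.map (nW A col)).prod =
      (-A⁻¹ ^ 3) ^ (l.map Crossing.sign).sum * (l.map (crossW A col)).prod := by
  have hA3 : (-A⁻¹ ^ 3 : ℂ) ≠ 0 := neg_ne_zero.2 (pow_ne_zero _ (inv_ne_zero hA))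
  induction l with
  | nil => simp
  | cons x l ih =>
    rw [List.map_cons, List.map_cons, List.map_cons, List.prod_cons, List.prod_cons,
      List.sum_cons, ih, zpow_add₀ hA3]
    unfold nW
    ring

theorem VV_eq {P : Type} {N : ℕ} {A : ℂ} (hA : A ≠ 0) (D : Diagram P) (col : P → Fin N) :
    VV A D col = (-A⁻¹ ^ 3) ^ D.writhe * WW A D.arcs D.crossings col := by
  unfold VV WW Diagram.writhe
  rw [prod_nW hA]
  ring

theorem ev_fPoly {P : Type} [Fintype P] [DecidableEq P] [Nonempty P] (N : ℕ) (hN : 3 ≤ N)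
    (D : Diagram P) : (N : ℂ) * ev N hN D.fPoly = ∑ col : P → Fin N, VV (Ar N) D col := by
  have hA := Ar_ne N hN
  have h1 : ev N hN D.fPoly = (-(Ar N)⁻¹ ^ 3) ^ D.writhe * ev N hN D.bracket := by
    unfold Diagram.fPoly
    rw [map_mul, map_mul, ev_T]
    congr 1
    have h2 : (-(Ar N)⁻¹ ^ 3) ^ D.writhe = (if Even D.writhe then 1 else -1) *
        ((Ar N)⁻¹ ^ 3) ^ D.writhe := by
      by_cases h : Even D.writhe
      · rw [if_pos h, one_mul, h.neg_zpow]
      · rw [if_neg h, (Int.not_even_iff_odd.1 h).neg_zpow, neg_one_mul]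
    rw [h2]
    congr 1
    · by_cases h : Even D.writhe
      · rw [if_pos h, if_pos h, map_one]
      · rw [if_neg h, if_neg h, map_neg, map_one]
    · rw [zpow_mul, inv_pow, ← zpow_natCast, ← zpow_neg]
      norm_num
  rw [h1, mul_left_comm, ev_bracket, Finset.mul_sum]
  exact Finset.sum_congr rfl fun col _ => (VV_eq hA D col).symm

end Pool.Agent.H832R3.VJ
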