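import Pool.Agent.H832R3.VJ.Defs2

set_option autoImplicit false

/-! Bridgeless sets and three-edge-connected graphs. -/

namespace Pool.Agent.H832R3.VJ

open Finset LaurentPolynomial Pool.Agent.H891R2.Jones Pool.Agent.H891R2.MT

section
variable {k : ℕ} (Γ : Ribbon k)

theorem cpoly_ne_zero_iff' (S : Finset (Fin k)) : Γ.cpoly S ≠ 0 ↔ Γ.Bridgeless S := by
  constructor
  · intro h e he
    by_contra h1
    have h2 := T3a.comps_erase Γ S e he
    exact h (T3a.cpoly_bridge Γ S e he (by omega))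
  · intro h
    exact (T3a.cpoly_monic Γ S h).1.ne_zero

theorem cpoly_natDegree (S : Finset (Fin k)) (h : Γ.Bridgeless S) :
    (Γ.cpoly S).Monic ∧ (Γ.cpoly S).natDegree = rr Γ S :=
  T3a.cpoly_monic Γ S h

theorem rr_mono {S S' : Finset (Fin k)} (h : S ⊆ S') : rr Γ S ≤ rr Γ S' :=
  T3a.mono Γ _ S S' (Nat.le_add_left _ _) h

private theorem rr_empty_aux : rr Γ ∅ = Γ.verts := by
  unfold rr
  rw [T3c.comps_empty, Finset.card_empty, zero_add]

theorem rr_lower (S : Finset (Fin k)) (h : Γ.Bridgeless S) (hS : S ≠ ∅) : Γ.verts < rr Γ S := by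
  obtain ⟨e, he⟩ := Finset.nonempty_iff_ne_empty.2 hS
  have h1 := rr_mono Γ (Finset.empty_subset (S.erase e))
  rw [rr_empty_aux] at h1
  have h2 : rr Γ (S.erase e) + 1 = rr Γ S := by
    have h0 : 0 < S.card := Finset.card_pos.2 ⟨e, he⟩
    unfold rr
    rw [h e he, Finset.card_erase_of_mem he]
    omega
  omega

theorem rr_empty : rr Γ ∅ = Γ.verts := rr_empty_aux Γ

theorem bridgeless_empty : Γ.Bridgeless ∅ := fun e he => absurd he (Finset.notMem_empty e)

private theorem comps_erase_one (h3 : ThreeEdgeConnected Γ) (e : Fin k) :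
    Γ.comps (univ.erase e) = 1 := by
  have := h3 e e
  rwa [Finset.erase_idem] at this

private theorem comps_univ_one (hk : 0 < k) (h3 : ThreeEdgeConnected Γ) :
    Γ.comps univ = 1 := by
  have h1 := (T3a.comps_erase Γ univ ⟨0, hk⟩ (Finset.mem_univ _)).1
  rw [comps_erase_one Γ h3] at h1
  have h2 : 0 < Γ.comps univ := by
    unfold Ribbon.comps
    haveI : Nonempty (Quot (fun x y : Fin k × Bool =>
        Γ.rot x = y ∨ (x.1 ∈ (univ : Finset (Fin k)) ∧ y = flip x))) :=
      ⟨Quot.mk _ (⟨0, hk⟩, true)⟩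
    exact Nat.card_pos
  omega

private theorem rr_univ (hk : 0 < k) (h3 : ThreeEdgeConnected Γ) : rr Γ univ = k + 1 := by
  unfold rr
  rw [comps_univ_one Γ hk h3, Finset.card_univ, Fintype.card_fin]

private theorem rr_erase (hk : 0 < k) (h3 : ThreeEdgeConnected Γ) (e : Fin k) :
    rr Γ (univ.erase e) = k := by
  unfold rr
  rw [comps_erase_one Γ h3, Finset.card_erase_of_mem (Finset.mem_univ _), Finset.card_univ,
    Fintype.card_fin]
  omega

private theorem sub_erase {S : Finset (Fin k)} {e : Fin k} (he : e ∉ S) : S ⊆ univ.erase e :=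
  fun _ hx => Finset.mem_erase.2 ⟨fun h => he (h ▸ hx), Finset.mem_univ _⟩

theorem bridgeless_univ (hk : 0 < k) (h3 : ThreeEdgeConnected Γ) :
    Γ.Bridgeless univ ∧ rr Γ univ = k + 1 ∧ ∀ S, k + 1 ≤ rr Γ S → S = univ := by
  refine ⟨fun e _ => by rw [comps_erase_one Γ h3, comps_univ_one Γ hk h3], rr_univ Γ hk h3, ?_⟩
  intro S hS
  by_contra hne
  obtain ⟨e, he⟩ : ∃ e, e ∉ S := by
    by_contra hcon
    push Not at hcon
    exact hne (Finset.eq_univ_iff_forall.2 hcon)
  have h1 := rr_mono Γ (sub_erase he)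
  rw [rr_erase Γ hk h3] at h1
  omega

theorem bridgeless_erase (hk : 0 < k) (h3 : ThreeEdgeConnected Γ) (e : Fin k) :
    Γ.Bridgeless (univ.erase e) ∧ rr Γ (univ.erase e) = k := by
  refine ⟨fun f _ => ?_, rr_erase Γ hk h3 e⟩
  rw [h3 e f, comps_erase_one Γ h3]

theorem eq_erase (hk : 0 < k) (h3 : ThreeEdgeConnected Γ) (S : Finset (Fin k))
    (hS : rr Γ S = k) : ∃ e, S = univ.erase e := by
  have hne : S ≠ univ := by
    rintro rfl
    rw [rr_univ Γ hk h3] at hS
    omega
  obtain ⟨e, he⟩ : ∃ e, e ∉ S := by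
    by_contra hcon
    push Not at hcon
    exact hne (Finset.eq_univ_iff_forall.2 hcon)
  refine ⟨e, ?_⟩
  by_contra hne2
  obtain ⟨f, hf, hfS⟩ := Finset.exists_of_ssubset
    (Finset.ssubset_iff_subset_ne.2 ⟨sub_erase he, hne2⟩)
  have h1 : S ⊆ (univ.erase e).erase f := fun x hx =>
    Finset.mem_erase.2 ⟨fun h => hfS (h ▸ hx), sub_erase he hx⟩
  have h2 := rr_mono Γ h1
  have h4 : ((univ.erase e).erase f).card + 2 = k := by
    rw [Finset.card_erase_of_mem hf, Finset.card_erase_of_mem (Finset.mem_univ _),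
      Finset.card_univ, Fintype.card_fin]
    have h5 : f ≠ e := (Finset.mem_erase.1 hf).1
    have h6 := e.isLt
    have h7 := f.isLt
    have h8 : (f : ℕ) ≠ e := fun h => h5 (Fin.ext h)
    omega
  have h5 : rr Γ ((univ.erase e).erase f) = ((univ.erase e).erase f).card + 1 := by
    unfold rr
    rw [h3 e f]
  omega

end

end Pool.Agent.H832R3.VJ
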