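import Pool.Agent.H832R3.VJ.Defs2

set_option autoImplicit false

/-! Local moves. -/

namespace Pool.Agent.H832R3.VJ

open Finset LaurentPolynomial Pool.Agent.H891R2.Jones Pool.Agent.H891R2.MT

namespace V2

theorem VV_add {P : Type} {N : ℕ} (A : ℂ) (D : Diagram P) (a : List (P × P))
    (c : List (Crossing P)) (col : P → Fin N) :
    VV A (add D a c) col = VV A ⟨a, c⟩ col * VV A D col := by
  simp only [VV, add, List.map_append, List.prod_append]
  ring

theorem arcW_map {P Q : Type} {N : ℕ} (f : P → Q) (col : Q → Fin N) (x : P × P) :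
    arcW col (Prod.map f f x) = arcW (col ∘ f) x := rfl

theorem nW_map {P Q : Type} {N : ℕ} (A : ℂ) (f : P → Q) (col : Q → Fin N) (x : Crossing P) :
    nW A col (Crossing.map f x) = nW A (col ∘ f) x := rfl

theorem VV_mapD {P Q : Type} {N : ℕ} (A : ℂ) (f : P → Q) (D : Diagram P) (col : Q → Fin N) :
    VV A (mapD f D) col = VV A D (col ∘ f) := by
  simp only [VV, mapD, List.map_map]
  rfl

theorem sum_elim {P I : Type} [Fintype P] [DecidableEq P] [Fintype I] [DecidableEq I] (N : ℕ)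
    (F : (P ⊕ I → Fin N) → ℂ) :
    ∑ col : P ⊕ I → Fin N, F col = ∑ col : P → Fin N, ∑ i : I → Fin N, F (Sum.elim col i) := by
  rw [← Fintype.sum_prod_type' (fun (col : P → Fin N) (i : I → Fin N) => F (Sum.elim col i))]
  refine Fintype.sum_equiv (Equiv.sumArrowEquivProdArrow P I (Fin N)) _ _ fun col => ?_
  congr 1
  funext x
  cases x <;> rfl

theorem VV_old {P I : Type} {N : ℕ} (A : ℂ) (D : Diagram P) (col : P → Fin N) (i : I → Fin N) :
    VV A (old I D) (Sum.elim col i) = VV A D col := by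
  rw [old, VV_mapD]
  rfl

theorem sum_add {P I : Type} [Fintype P] [DecidableEq P] [Fintype I] [DecidableEq I]
    (A : ℂ) (N : ℕ) (D : Diagram P)
    (a₁ : List ((P ⊕ I) × (P ⊕ I))) (c₁ : List (Crossing (P ⊕ I))) :
    ∑ col : P ⊕ I → Fin N, VV A (add (old I D) a₁ c₁) col =
      ∑ col : P → Fin N, (∑ i : I → Fin N, VV A ⟨a₁, c₁⟩ (Sum.elim col i)) * VV A D col := by
  rw [sum_elim]
  refine Finset.sum_congr rfl fun col _ => ?_
  rw [Finset.sum_mul]
  refine Finset.sum_congr rfl fun i _ => ?_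
  rw [VV_add, VV_old]

end V2

open V2

theorem local_move {P I J : Type} [Fintype P] [DecidableEq P] [Fintype I] [DecidableEq I]
    [Fintype J] [DecidableEq J] (A : ℂ) (N : ℕ) (D : Diagram P)
    (a₁ : List ((P ⊕ I) × (P ⊕ I))) (c₁ : List (Crossing (P ⊕ I)))
    (a₂ : List ((P ⊕ J) × (P ⊕ J))) (c₂ : List (Crossing (P ⊕ J)))
    (h : ∀ col : P → Fin N, ∑ i : I → Fin N, VV A ⟨a₁, c₁⟩ (Sum.elim col i) =
      ∑ j : J → Fin N, VV A ⟨a₂, c₂⟩ (Sum.elim col j)) :
    ∑ col : P ⊕ I → Fin N, VV A (add (old I D) a₁ c₁) col =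
      ∑ col : P ⊕ J → Fin N, VV A (add (old J D) a₂ c₂) col := by
  rw [sum_add, sum_add]
  exact Finset.sum_congr rfl fun col _ => by rw [h col]

theorem local_move' {P J : Type} [Fintype P] [DecidableEq P] [Fintype J] [DecidableEq J]
    (A : ℂ) (N : ℕ) (D : Diagram P) (a₁ : List (P × P)) (c₁ : List (Crossing P))
    (a₂ : List ((P ⊕ J) × (P ⊕ J))) (c₂ : List (Crossing (P ⊕ J)))
    (h : ∀ col : P → Fin N, VV A ⟨a₁, c₁⟩ col =
      ∑ j : J → Fin N, VV A ⟨a₂, c₂⟩ (Sum.elim col j)) :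
    ∑ col : P → Fin N, VV A (add D a₁ c₁) col =
      ∑ col : P ⊕ J → Fin N, VV A (add (old J D) a₂ c₂) col := by
  rw [sum_add]
  exact Finset.sum_congr rfl fun col _ => by rw [VV_add, h col]

theorem relabel_inv {P Q : Type} [Fintype P] [DecidableEq P] [Fintype Q] [DecidableEq Q]
    (A : ℂ) (N : ℕ) (e : P ≃ Q) (D : Diagram P) :
    ∑ col : P → Fin N, VV A D col = ∑ col : Q → Fin N, VV A (mapD e D) col := by
  refine Fintype.sum_equiv (Equiv.arrowCongr e (Equiv.refl _)) _ _ fun col => ?_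
  rw [VV_mapD]
  congr 1
  funext x
  simp

theorem order_inv {P : Type} (A : ℂ) (N : ℕ) (D D' : Diagram P) (h : D.arcs.Perm D'.arcs)
    (h' : D.crossings.Perm D'.crossings) (col : P → Fin N) : VV A D col = VV A D' col := by
  simp only [VV]
  rw [(h.map _).prod_eq, (h'.map _).prod_eq]

theorem turn_inv {P : Type} (A : ℂ) (N : ℕ) (D : Diagram P) (x : Crossing P) (col : P → Fin N) :
    VV A (add D [] [x]) col = VV A (add D [] [turn x]) col := by
  rw [VV_add, VV_add]
  congr 1
  simp only [VV, List.map_nil, List.prod_nil, List.map_cons, List.prod_cons, one_mul, mul_one]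
  have h1 : (turn x).sign = x.sign := by
    obtain ⟨a, b, c, d, f, g⟩ := x
    cases f <;> cases g <;> rfl
  have h2 : crossW A col (turn x) = crossW A col x := by
    simp only [crossW, turn]
    rw [ind_congr (p := col x.c = col x.d ∧ col x.a = col x.b) and_comm,
      ind_congr (p := col x.d = col x.a ∧ col x.b = col x.c) and_comm]
  rw [nW, nW, h1, h2]

end Pool.Agent.H832R3.VJ
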