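import Pool.Agent.H832R3.VJ.Defs2

set_option autoImplicit false

/-! Cuts and the first move: local identities. -/

namespace Pool.Agent.H832R3.VJ

open Finset LaurentPolynomial Pool.Agent.H891R2.Jones Pool.Agent.H891R2.MT

namespace V3

theorem sum_unit {N : ℕ} (F : (Unit → Fin N) → ℂ) : ∑ j, F j = ∑ c : Fin N, F (fun _ => c) := by
  rw [← (Equiv.funUnique Unit (Fin N)).symm.sum_comp]
  rfl

theorem sum_ind {N : ℕ} (x : Fin N) (F : Fin N → ℂ) : ∑ c, ind (x = c) * F c = F x := by
  rw [Finset.sum_eq_single x]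
  · rw [ind_pos rfl, one_mul]
  · intro b _ hb
    rw [ind_neg (fun h => hb h.symm), zero_mul]
  · intro h
    exact absurd (Finset.mem_univ x) h

theorem sum_ind' {N : ℕ} (x : Fin N) (F : Fin N → ℂ) : ∑ c, ind (c = x) * F c = F x := by
  rw [← sum_ind x F]
  exact Finset.sum_congr rfl fun c _ => by rw [ind_congr (eq_comm (a := c) (b := x))]

theorem sum_and1 {N : ℕ} (x y : Fin N) : ∑ c, ind (x = c ∧ c = y) = ind (x = y) := by
  rw [← sum_ind x (fun c => ind (c = y))]
  exact Finset.sum_congr rfl fun c _ => ind_mul.symm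

theorem sum_const {N : ℕ} (p : Prop) : ∑ _c : Fin N, ind p = N * ind p := by
  rw [Finset.sum_const, Finset.card_univ, Fintype.card_fin, nsmul_eq_mul]

end V3

section
variable {P : Type} (A : ℂ) (N : ℕ) (col : P → Fin N)

theorem cutArc_loc (p q : P) : VV A ⟨[(p, q)], []⟩ col =
    ∑ j : Unit → Fin N, VV A ⟨[(.inl p, .inr ()), (.inr (), .inl q)], []⟩ (Sum.elim col j) := by
  rw [V3.sum_unit]
  simp only [VV, List.map_cons, List.map_nil, List.prod_cons, List.prod_nil, mul_one, arcW,
    Sum.elim_inl, Sum.elim_inr]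
  rw [V3.sum_ind (col p) (fun c => ind (c = col q))]

theorem cutUnder_loc (a b c d : P) (f g : Bool) : VV A ⟨[], [⟨a, b, c, d, f, g⟩]⟩ col =
    ∑ j : Unit → Fin N, VV A ⟨[arc f (.inl a) (.inr ())],
      [⟨.inr (), .inl b, .inl c, .inl d, f, g⟩]⟩ (Sum.elim col j) := by
  rw [V3.sum_unit]
  have key : ∀ x : Fin N, arcW (Sum.elim col (fun _ : Unit => x)) (arc f (.inl a) (.inr ())) =
      ind (col a = x) := by
    intro x
    cases f
    · exact ind_congr eq_comm
    · rfl
  simp only [VV, List.map_cons, List.map_nil, List.prod_cons, List.prod_nil, mul_one, one_mul, key,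
    nW, crossW, Sum.elim_inl, Sum.elim_inr]
  rw [V3.sum_ind (col a) (fun x => (-A⁻¹ ^ 3) ^
    (Crossing.sign (⟨.inr (), .inl b, .inl c, .inl d, f, g⟩ : Crossing (P ⊕ Unit))) *
    (A * ind (x = col b ∧ col c = col d) + A⁻¹ * ind (col b = col c ∧ col d = x)))]
  rfl

theorem cutOver_loc (a b c d : P) (f g : Bool) : VV A ⟨[], [⟨a, b, c, d, f, g⟩]⟩ col =
    ∑ j : Unit → Fin N, VV A ⟨[arc g (.inl b) (.inr ())],
      [⟨.inl a, .inr (), .inl c, .inl d, f, g⟩]⟩ (Sum.elim col j) := by
  rw [V3.sum_unit]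
  have key : ∀ x : Fin N, arcW (Sum.elim col (fun _ : Unit => x)) (arc g (.inl b) (.inr ())) =
      ind (col b = x) := by
    intro x
    cases g
    · exact ind_congr eq_comm
    · rfl
  simp only [VV, List.map_cons, List.map_nil, List.prod_cons, List.prod_nil, mul_one, one_mul, key,
    nW, crossW, Sum.elim_inl, Sum.elim_inr]
  rw [V3.sum_ind (col b) (fun x => (-A⁻¹ ^ 3) ^
    (Crossing.sign (⟨.inl a, .inr (), .inl c, .inl d, f, g⟩ : Crossing (P ⊕ Unit))) *
    (A * ind (col a = x ∧ col c = col d) + A⁻¹ * ind (x = col c ∧ col d = col a)))]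
  rfl

theorem first_loc (hA : A ≠ 0) (hNA : (N : ℂ) = -A ^ 2 - A⁻¹ ^ 2) (p q : P) (k : Fin 4) :
    VV A ⟨[(p, q)], []⟩ col =
    ∑ j : Unit → Fin N, VV A ⟨[], [kink (.inl p) (.inl q) (.inr ()) k]⟩ (Sum.elim col j) := by
  rw [V3.sum_unit]
  have s1 : ∀ x y : Fin N, ind (x = y) = ind (y = x) := fun x y => ind_congr eq_comm
  fin_cases k
  · simp only [VV, List.map_cons, List.map_nil, List.prod_cons, List.prod_nil, mul_one, one_mul,
      arcW, nW, crossW, kink, Crossing.sign, Sum.elim_inl, Sum.elim_inr, if_true,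
      true_and]
    rw [← Finset.mul_sum, Finset.sum_add_distrib, ← Finset.mul_sum, ← Finset.mul_sum, V3.sum_and1,
      V3.sum_const, s1 (col q) (col p), hNA]
    field_simp
    ring
  · simp only [VV, List.map_cons, List.map_nil, List.prod_cons, List.prod_nil, mul_one, one_mul,
      arcW, nW, crossW, kink, Crossing.sign, Sum.elim_inl, Sum.elim_inr,
      and_true]
    have h1 : (∑ c : Fin N, ind (col q = c ∧ c = col p)) = ind (col q = col p) := V3.sum_and1 _ _
    rw [← Finset.mul_sum, Finset.sum_add_distrib, ← Finset.mul_sum, ← Finset.mul_sum, h1,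
      V3.sum_const, s1 (col q) (col p), hNA]
    simp only [Bool.true_eq_false, if_false, zpow_one]
    field_simp
    ring
  · have e : (kink (.inl p) (.inl q) (.inr ()) ⟨2, by decide⟩ : Crossing (P ⊕ Unit)) =
        ⟨.inr (), .inl p, .inl q, .inr (), true, true⟩ := rfl
    show _ = ∑ c, VV A ⟨[], [(kink (.inl p) (.inl q) (.inr ()) ⟨2, by decide⟩ : Crossing (P ⊕ Unit))]⟩ _
    rw [e]
    simp only [VV, List.map_cons, List.map_nil, List.prod_cons, List.prod_nil, mul_one, one_mul,
      arcW, nW, crossW, Crossing.sign, Sum.elim_inl, Sum.elim_inr, if_true, and_true]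
    have h1 : (∑ c : Fin N, ind (c = col p ∧ col q = c)) = ind (col q = col p) := by
      rw [← V3.sum_and1 (col q) (col p)]
      exact Finset.sum_congr rfl fun c _ => ind_congr and_comm
    rw [← Finset.mul_sum, Finset.sum_add_distrib, ← Finset.mul_sum, ← Finset.mul_sum, h1,
      V3.sum_const, s1 (col q) (col p), hNA]
    field_simp
    ring
  · have e : (kink (.inl p) (.inl q) (.inr ()) ⟨3, by decide⟩ : Crossing (P ⊕ Unit)) =
        ⟨.inl q, .inl p, .inr (), .inr (), false, true⟩ := rfl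
    show _ = ∑ c, VV A ⟨[], [(kink (.inl p) (.inl q) (.inr ()) ⟨3, by decide⟩ : Crossing (P ⊕ Unit))]⟩ _
    rw [e]
    simp only [VV, List.map_cons, List.map_nil, List.prod_cons, List.prod_nil, mul_one, one_mul,
      arcW, nW, crossW, Crossing.sign, Sum.elim_inl, Sum.elim_inr, and_true]
    have h1 : (∑ c : Fin N, ind (col p = c ∧ c = col q)) = ind (col p = col q) := V3.sum_and1 _ _
    rw [← Finset.mul_sum, Finset.sum_add_distrib, ← Finset.mul_sum, ← Finset.mul_sum, h1,
      V3.sum_const, s1 (col q) (col p), hNA]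
    simp only [Bool.false_eq_true, if_false, zpow_one]
    field_simp
    ring

end

end Pool.Agent.H832R3.VJ
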