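import Pool.Agent.H832R3.VJ.V4

set_option autoImplicit false

/-! The second move: local identity. -/

namespace Pool.Agent.H832R3.VJ

open Finset LaurentPolynomial Pool.Agent.H891R2.Jones Pool.Agent.H891R2.MT

namespace V3b

open V4

theorem sum2 {N : ℕ} (F : Fin N → Fin N → ℂ) :
    ∑ j : Bool → Fin N, F (j true) (j false) = ∑ a, ∑ b, F a b := by
  let E : (Bool → Fin N) ≃ Fin N × Fin N :=
    { toFun := fun j => (j true, j false)
      invFun := fun p b => if b then p.1 else p.2
      left_inv := by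
        intro j
        funext i
        cases i <;> rfl
      right_inv := by
        rintro ⟨a, b⟩
        rfl }
  rw [Fintype.sum_equiv E (fun j => F (j true) (j false)) (fun p => F p.1 p.2) (fun j => rfl)]
  simp only [Fintype.sum_prod_type]

theorem key2 {N : ℕ} (x y : ℂ) (hxy : x * y = 1) (hN : (N : ℂ) = -x ^ 2 - y ^ 2)
    (X0 X1 Y0 Y1 : Fin N) :
    ∑ a, ∑ b, w x y X0 Y0 a b * w y x a b X1 Y1 = e X0 X1 * e Y0 Y1 := by
  have hcc : ∀ c : Fin N, e c c = 1 := fun c => if_pos rfl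
  have h1 : ∀ a : Fin N, ∑ b, w x y X0 Y0 a b * w y x a b X1 Y1 =
      x * y * (e X0 a * (e a X1 * e Y0 Y1)) + x ^ 2 * (e X0 a * (e Y0 a * e X1 Y1)) +
      y ^ 2 * (e a X1 * (e X0 Y0 * e a Y1)) + x * y * (e X0 Y0 * e X1 Y1) := by
    intro a
    have : ∀ b, w x y X0 Y0 a b * w y x a b X1 Y1 =
        e Y0 b * (x * e X0 a * (y * (e a X1 * e b Y1) + x * (e a b * e X1 Y1))) +
        e a b * (y * e X0 Y0 * (y * (e a X1 * e b Y1) + x * (e a b * e X1 Y1))) := by
      intro b
      unfold w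
      ring
    simp only [this, Finset.sum_add_distrib, sum_e]
    rw [hcc, e_comm a Y0]
    ring
  simp only [h1, Finset.sum_add_distrib, ← Finset.mul_sum, sum_e, sum_e', Finset.sum_const,
    Finset.card_univ, Fintype.card_fin, nsmul_eq_mul]
  rw [hN, e_comm Y0 X0]
  linear_combination (e X0 X1 * e Y0 Y1 + e X0 Y0 * e X1 Y1 * (-x ^ 2 - y ^ 2)) * hxy

end V3b

open V4

section
variable {P : Type} (A : ℂ) (N : ℕ) (col : P → Fin N)

theorem second_loc (hA : A ≠ 0) (hNA : (N : ℂ) = -A ^ 2 - A⁻¹ ^ 2) (ov f g : Bool)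
    (x₀ x₁ y₀ y₁ : P) : VV A ⟨[arc f x₀ x₁, arc g y₀ y₁], []⟩ col =
    ∑ j : Bool → Fin N, VV A ⟨[], [cross ov (.inl x₀) (.inl y₀) (.inr true) (.inr false) f g,
           cross (!ov) (.inr true) (.inr false) (.inl x₁) (.inl y₁) g f]⟩ (Sum.elim col j) := by
  set x : ℂ := if ov then A else A⁻¹ with hx
  set y : ℂ := if ov then A⁻¹ else A with hy
  have hxy : x * y = 1 := by
    rw [hx, hy]
    cases ov
    · simp [hA]
    · simp [hA]
  have hN : (N : ℂ) = -x ^ 2 - y ^ 2 := by
    rw [hNA, hx, hy]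
    cases ov
    · simp only [Bool.false_eq_true, if_false]; ring
    · simp only [if_true]
  have hx' : (if !ov then A else A⁻¹ : ℂ) = y := by
    rw [hy]; cases ov <;> rfl
  have hy' : (if !ov then A⁻¹ else A : ℂ) = x := by
    rw [hx]; cases ov <;> rfl
  have hsg : sg ov f g + sg (!ov) g f = 0 := by
    cases ov <;> cases f <;> cases g <;> decide
  have hA3 : (-A⁻¹ ^ 3 : ℂ) ≠ 0 := neg_ne_zero.2 (pow_ne_zero _ (inv_ne_zero hA))
  have h1 : ∀ j : Bool → Fin N,
      VV A ⟨[], [cross ov (.inl x₀) (.inl y₀) (.inr true) (.inr false) f g,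
           cross (!ov) (.inr true) (.inr false) (.inl x₁) (.inl y₁) g f]⟩ (Sum.elim col j) =
      w x y (col x₀) (col y₀) (j true) (j false) * w y x (j true) (j false) (col x₁) (col y₁) := by
    intro j
    simp only [VV, List.map_nil, List.prod_nil, List.map_cons, List.prod_cons, nW, sign_cross,
      crossW_cross, Sum.elim_inl, Sum.elim_inr, ← hx, ← hy, hx', hy']
    have h2 : (-A⁻¹ ^ 3 : ℂ) ^ sg ov f g * (-A⁻¹ ^ 3) ^ sg (!ov) g f = 1 := by
      rw [← zpow_add₀ hA3, hsg, zpow_zero]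
    linear_combination (w x y (col x₀) (col y₀) (j true) (j false) *
      w y x (j true) (j false) (col x₁) (col y₁)) * h2
  simp only [h1]
  rw [V3b.sum2 (fun a b => w x y (col x₀) (col y₀) a b * w y x a b (col x₁) (col y₁)),
    V3b.key2 x y hxy hN]
  have h3 : ∀ (f : Bool) (p q : P), arcW col (arc f p q) = e (col p) (col q) := by
    intro f p q
    cases f
    · show ind (col q = col p) = _
      rw [ind_e, e_comm]
    · exact ind_e _ _
  simp only [VV, List.map_nil, List.prod_nil, List.map_cons, List.prod_cons, h3]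
  ring

end

end Pool.Agent.H832R3.VJ
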