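import Pool.Agent.H832R3.VJ.Defs2

set_option autoImplicit false

/-! The third move: local identity. -/

namespace Pool.Agent.H832R3.VJ

open Finset LaurentPolynomial Pool.Agent.H891R2.Jones Pool.Agent.H891R2.MT

namespace V4

noncomputable def e {N : ℕ} (a b : Fin N) : ℂ := if a = b then 1 else 0

theorem e_comm {N : ℕ} (a b : Fin N) : e a b = e b a := by
  unfold e; simp only [eq_comm]

theorem sum_e {N : ℕ} (a : Fin N) (F : Fin N → ℂ) : ∑ c, e a c * F c = F a := by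
  unfold e; simp

theorem sum_e' {N : ℕ} (a : Fin N) (F : Fin N → ℂ) : ∑ c, e c a * F c = F a := by
  unfold e; simp

/-- the weight -/
noncomputable def w {N : ℕ} (x y : ℂ) (ll lr ul ur : Fin N) : ℂ :=
  x * (e ll ul * e lr ur) + y * (e ll lr * e ul ur)

theorem lhs {N : ℕ} (x y : ℂ) (B1 B2 B3 T1 T2 T3 : Fin N) :
    ∑ c0, ∑ c1, ∑ c2, w x y B1 B2 c0 c1 * w x y c1 B3 c2 T3 * w x y c0 c2 T1 T2 =
      x ^ 3 * (e B1 T1 * e B2 T2 * e B3 T3) +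
      (2 * x ^ 2 * y + N * x * y ^ 2 + y ^ 3) * (e B1 B2 * e T1 T2 * e B3 T3) +
      x ^ 2 * y * (e B1 T1 * e B2 B3 * e T2 T3) +
      x * y ^ 2 * (e B2 B3 * e B1 T3 * e T1 T2) +
      x * y ^ 2 * (e B1 B2 * e B3 T1 * e T2 T3) := by
  have h2 : ∀ c0 c1 : Fin N, ∑ c2, w x y B1 B2 c0 c1 * w x y c1 B3 c2 T3 * w x y c0 c2 T1 T2 =
      w x y B1 B2 c0 c1 * (x ^ 2 * e c0 T1 * e B3 T3 * e c1 T2 + x * y * e B3 T3 * e T1 T2 * e c1 c0 +
        x * y * e c1 B3 * e c0 T1 * e T3 T2 + y ^ 2 * e c1 B3 * e T1 T2 * e T3 c0) := by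
    intro c0 c1
    have : ∀ c2, w x y B1 B2 c0 c1 * w x y c1 B3 c2 T3 * w x y c0 c2 T1 T2 =
        e c1 c2 * (w x y B1 B2 c0 c1 * (x ^ 2 * e c0 T1 * e B3 T3 * e c2 T2 + x * y * e B3 T3 * e T1 T2 * e c2 c0)) +
        e c2 T3 * (w x y B1 B2 c0 c1 * (x * y * e c1 B3 * e c0 T1 * e c2 T2 + y ^ 2 * e c1 B3 * e T1 T2 * e c2 c0)) := by
      intro c2
      unfold w
      rw [e_comm c2 c0]
      ring
    simp only [this, Finset.sum_add_distrib, sum_e, sum_e']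
    ring
  simp only [h2]
  have h1 : ∀ c0 : Fin N, ∑ c1, w x y B1 B2 c0 c1 * (x ^ 2 * e c0 T1 * e B3 T3 * e c1 T2 + x * y * e B3 T3 * e T1 T2 * e c1 c0 +
        x * y * e c1 B3 * e c0 T1 * e T3 T2 + y ^ 2 * e c1 B3 * e T1 T2 * e T3 c0) =
      x * e B1 c0 * (x ^ 2 * e c0 T1 * e B3 T3 * e B2 T2 + x * y * e B3 T3 * e T1 T2 * e B2 c0 +
        x * y * e B2 B3 * e c0 T1 * e T3 T2 + y ^ 2 * e B2 B3 * e T1 T2 * e T3 c0) +
      y * e B1 B2 * (x ^ 2 * e c0 T1 * e B3 T3 * e c0 T2 + x * y * e B3 T3 * e T1 T2 * e c0 c0 +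
        x * y * e c0 B3 * e c0 T1 * e T3 T2 + y ^ 2 * e c0 B3 * e T1 T2 * e T3 c0) := by
    intro c0
    have : ∀ c1, w x y B1 B2 c0 c1 * (x ^ 2 * e c0 T1 * e B3 T3 * e c1 T2 + x * y * e B3 T3 * e T1 T2 * e c1 c0 +
        x * y * e c1 B3 * e c0 T1 * e T3 T2 + y ^ 2 * e c1 B3 * e T1 T2 * e T3 c0) =
        e B2 c1 * (x * e B1 c0 * (x ^ 2 * e c0 T1 * e B3 T3 * e c1 T2 + x * y * e B3 T3 * e T1 T2 * e c1 c0 +
        x * y * e c1 B3 * e c0 T1 * e T3 T2 + y ^ 2 * e c1 B3 * e T1 T2 * e T3 c0)) +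
        e c0 c1 * (y * e B1 B2 * (x ^ 2 * e c0 T1 * e B3 T3 * e c1 T2 + x * y * e B3 T3 * e T1 T2 * e c1 c0 +
        x * y * e c1 B3 * e c0 T1 * e T3 T2 + y ^ 2 * e c1 B3 * e T1 T2 * e T3 c0)) := by
      intro c1
      unfold w
      ring
    simp only [this, Finset.sum_add_distrib, sum_e]
  simp only [h1]
  have hcc : ∀ c : Fin N, e c c = 1 := fun c => if_pos rfl
  have h0 : ∀ c0 : Fin N, x * e B1 c0 * (x ^ 2 * e c0 T1 * e B3 T3 * e B2 T2 + x * y * e B3 T3 * e T1 T2 * e B2 c0 +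
        x * y * e B2 B3 * e c0 T1 * e T3 T2 + y ^ 2 * e B2 B3 * e T1 T2 * e T3 c0) +
      y * e B1 B2 * (x ^ 2 * e c0 T1 * e B3 T3 * e c0 T2 + x * y * e B3 T3 * e T1 T2 * e c0 c0 +
        x * y * e c0 B3 * e c0 T1 * e T3 T2 + y ^ 2 * e c0 B3 * e T1 T2 * e T3 c0) =
      e B1 c0 * (x * (x ^ 2 * e c0 T1 * e B3 T3 * e B2 T2 + x * y * e B3 T3 * e T1 T2 * e B2 c0 +
        x * y * e B2 B3 * e c0 T1 * e T3 T2 + y ^ 2 * e B2 B3 * e T1 T2 * e T3 c0)) +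
      (e c0 T1 * (y * e B1 B2 * (x ^ 2 * e B3 T3 * e c0 T2)) + x * y ^ 2 * e B1 B2 * e B3 T3 * e T1 T2 +
       e c0 B3 * (y * e B1 B2 * (x * y * e c0 T1 * e T3 T2 + y ^ 2 * e T1 T2 * e T3 c0))) := by
    intro c0
    rw [hcc]
    ring
  simp only [h0, Finset.sum_add_distrib, sum_e, sum_e', Finset.sum_const, Finset.card_univ,
    Fintype.card_fin, nsmul_eq_mul]
  rw [e_comm T3 T2, e_comm T3 B1, e_comm T3 B3, e_comm B2 B1]
  ring

theorem rhs {N : ℕ} (x y : ℂ) (B1 B2 B3 T1 T2 T3 : Fin N) :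
    ∑ c0, ∑ c1, ∑ c2, w x y B2 B3 c0 c1 * w x y B1 c0 T1 c2 * w x y c2 c1 T2 T3 =
      x ^ 3 * (e B1 T1 * e B2 T2 * e B3 T3) +
      (2 * x ^ 2 * y + N * x * y ^ 2 + y ^ 3) * (e B1 T1 * e B2 B3 * e T2 T3) +
      x ^ 2 * y * (e B1 B2 * e T1 T2 * e B3 T3) +
      x * y ^ 2 * (e B2 B3 * e B1 T3 * e T1 T2) +
      x * y ^ 2 * (e B1 B2 * e B3 T1 * e T2 T3) := by
  have h2 : ∀ c0 c1 : Fin N, ∑ c2, w x y B2 B3 c0 c1 * w x y B1 c0 T1 c2 * w x y c2 c1 T2 T3 =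
      w x y B2 B3 c0 c1 * (x * e B1 T1 * (x * e c0 T2 * e c1 T3 + y * e c0 c1 * e T2 T3) +
        y * e B1 c0 * (x * e T1 T2 * e c1 T3 + y * e T1 c1 * e T2 T3)) := by
    intro c0 c1
    have : ∀ c2, w x y B2 B3 c0 c1 * w x y B1 c0 T1 c2 * w x y c2 c1 T2 T3 =
        e c0 c2 * (w x y B2 B3 c0 c1 * (x * e B1 T1 * (x * e c2 T2 * e c1 T3 + y * e c2 c1 * e T2 T3))) +
        e T1 c2 * (w x y B2 B3 c0 c1 * (y * e B1 c0 * (x * e c2 T2 * e c1 T3 + y * e c2 c1 * e T2 T3))) := by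
      intro c2
      unfold w
      ring
    simp only [this, Finset.sum_add_distrib, sum_e, sum_e']
    ring
  simp only [h2]
  have h1 : ∀ c0 : Fin N, ∑ c1, w x y B2 B3 c0 c1 * (x * e B1 T1 * (x * e c0 T2 * e c1 T3 + y * e c0 c1 * e T2 T3) +
        y * e B1 c0 * (x * e T1 T2 * e c1 T3 + y * e T1 c1 * e T2 T3)) =
      x * e B2 c0 * (x * e B1 T1 * (x * e c0 T2 * e B3 T3 + y * e c0 B3 * e T2 T3) +
        y * e B1 c0 * (x * e T1 T2 * e B3 T3 + y * e T1 B3 * e T2 T3)) +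
      y * e B2 B3 * (x * e B1 T1 * (x * e c0 T2 * e c0 T3 + y * e c0 c0 * e T2 T3) +
        y * e B1 c0 * (x * e T1 T2 * e c0 T3 + y * e T1 c0 * e T2 T3)) := by
    intro c0
    have : ∀ c1, w x y B2 B3 c0 c1 * (x * e B1 T1 * (x * e c0 T2 * e c1 T3 + y * e c0 c1 * e T2 T3) +
        y * e B1 c0 * (x * e T1 T2 * e c1 T3 + y * e T1 c1 * e T2 T3)) =
        e B3 c1 * (x * e B2 c0 * (x * e B1 T1 * (x * e c0 T2 * e c1 T3 + y * e c0 c1 * e T2 T3) +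
        y * e B1 c0 * (x * e T1 T2 * e c1 T3 + y * e T1 c1 * e T2 T3))) +
        e c0 c1 * (y * e B2 B3 * (x * e B1 T1 * (x * e c0 T2 * e c1 T3 + y * e c0 c1 * e T2 T3) +
        y * e B1 c0 * (x * e T1 T2 * e c1 T3 + y * e T1 c1 * e T2 T3))) := by
      intro c1
      unfold w
      ring
    simp only [this, Finset.sum_add_distrib, sum_e]
  simp only [h1]
  have hcc : ∀ c : Fin N, e c c = 1 := fun c => if_pos rfl
  have h0 : ∀ c0 : Fin N, x * e B2 c0 * (x * e B1 T1 * (x * e c0 T2 * e B3 T3 + y * e c0 B3 * e T2 T3) +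
        y * e B1 c0 * (x * e T1 T2 * e B3 T3 + y * e T1 B3 * e T2 T3)) +
      y * e B2 B3 * (x * e B1 T1 * (x * e c0 T2 * e c0 T3 + y * e c0 c0 * e T2 T3) +
        y * e B1 c0 * (x * e T1 T2 * e c0 T3 + y * e T1 c0 * e T2 T3)) =
      e B2 c0 * (x * (x * e B1 T1 * (x * e c0 T2 * e B3 T3 + y * e c0 B3 * e T2 T3) +
        y * e B1 c0 * (x * e T1 T2 * e B3 T3 + y * e T1 B3 * e T2 T3))) +
      (e c0 T2 * (y * e B2 B3 * (x * e B1 T1 * (x * e c0 T3))) + x * y ^ 2 * e B2 B3 * e B1 T1 * e T2 T3 +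
       e B1 c0 * (y * e B2 B3 * (y * (x * e T1 T2 * e c0 T3 + y * e T1 c0 * e T2 T3)))) := by
    intro c0
    rw [hcc]
    ring
  simp only [h0, Finset.sum_add_distrib, sum_e, sum_e', Finset.sum_const, Finset.card_univ,
    Fintype.card_fin, nsmul_eq_mul]
  rw [e_comm T1 B3, e_comm T1 B1]
  ring

theorem key {N : ℕ} (x y : ℂ) (hxy : x * y = 1) (hN : (N : ℂ) = -x ^ 2 - y ^ 2)
    (B1 B2 B3 T1 T2 T3 : Fin N) :
    ∑ c0, ∑ c1, ∑ c2, w x y B1 B2 c0 c1 * w x y c1 B3 c2 T3 * w x y c0 c2 T1 T2 =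
    ∑ c0, ∑ c1, ∑ c2, w x y B2 B3 c0 c1 * w x y B1 c0 T1 c2 * w x y c2 c1 T2 T3 := by
  rw [lhs, rhs]
  have h : (2 * x ^ 2 * y + N * x * y ^ 2 + y ^ 3 : ℂ) = x ^ 2 * y := by
    rw [hN]
    linear_combination (-(x ^ 2 * y) - y ^ 3) * hxy
  rw [h]
  ring

theorem sum3 {N : ℕ} (F : Fin N → Fin N → Fin N → ℂ) :
    ∑ j : Fin 3 → Fin N, F (j 0) (j 1) (j 2) = ∑ a, ∑ b, ∑ c, F a b c := by
  let E : (Fin 3 → Fin N) ≃ Fin N × Fin N × Fin N :=
    { toFun := fun j => (j 0, j 1, j 2)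
      invFun := fun p => ![p.1, p.2.1, p.2.2]
      left_inv := by
        intro j
        funext i
        fin_cases i <;> rfl
      right_inv := by
        rintro ⟨a, b, c⟩
        rfl }
  rw [Fintype.sum_equiv E (fun j => F (j 0) (j 1) (j 2)) (fun p => F p.1 p.2.1 p.2.2)
    (fun j => rfl)]
  simp only [Fintype.sum_prod_type]

theorem ind_e {N : ℕ} (a b : Fin N) : ind (a = b) = e a b := by
  unfold ind e
  simp

/-- the sign of `cross` -/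
def sg (ov f g : Bool) : ℤ := if ov then (if g = !f then -1 else 1) else (if f = g then -1 else 1)

theorem sign_cross {P : Type} (ov : Bool) (ll lr ul ur : P) (f g : Bool) :
    (cross ov ll lr ul ur f g).sign = sg ov f g := by
  cases ov <;> rfl

theorem crossW_cross {P : Type} {N : ℕ} (A : ℂ) (col : P → Fin N) (ov : Bool) (ll lr ul ur : P)
    (f g : Bool) : crossW A col (cross ov ll lr ul ur f g) =
      w (if ov then A else A⁻¹) (if ov then A⁻¹ else A) (col ll) (col lr) (col ul) (col ur) := by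
  cases ov
  · simp only [cross, crossW, w, ← ind_mul, ind_e, Bool.false_eq_true, if_false]
    rw [e_comm (col ur) (col ul), e_comm (col ul) (col ll)]
    ring
  · simp only [cross, crossW, w, ← ind_mul, ind_e, if_true]
    rw [e_comm (col ur) (col ul), e_comm (col ul) (col ll)]
    ring

end V4


open V4

section
variable {P : Type} (A : ℂ) (N : ℕ) (col : P → Fin N)

theorem third_loc (hA : A ≠ 0) (hNA : (N : ℂ) = -A ^ 2 - A⁻¹ ^ 2) (ov f₁ f₂ f₃ : Bool)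
    (b₁ b₂ b₃ t₁ t₂ t₃ : P) :
    ∑ j : Fin 3 → Fin N, VV A ⟨[], [cross ov (.inl b₁) (.inl b₂) (.inr 0) (.inr 1) f₁ f₂,
           cross ov (.inr 1) (.inl b₃) (.inr 2) (.inl t₃) f₁ f₃,
           cross ov (.inr 0) (.inr 2) (.inl t₁) (.inl t₂) f₂ f₃]⟩ (Sum.elim col j) =
    ∑ j : Fin 3 → Fin N, VV A ⟨[], [cross ov (.inl b₂) (.inl b₃) (.inr 0) (.inr 1) f₂ f₃,
           cross ov (.inl b₁) (.inr 0) (.inl t₁) (.inr 2) f₁ f₃,
           cross ov (.inr 2) (.inr 1) (.inl t₂) (.inl t₃) f₁ f₂]⟩ (Sum.elim col j) := by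
  set x : ℂ := if ov then A else A⁻¹ with hx
  set y : ℂ := if ov then A⁻¹ else A with hy
  have hxy : x * y = 1 := by
    rw [hx, hy]
    cases ov
    · simp [hA]
    · simp [hA]
  have hN : (N : ℂ) = -x ^ 2 - y ^ 2 := by
    rw [hNA, hx, hy]
    cases ov
    · simp only [Bool.false_eq_true, if_false]; ring
    · simp only [if_true]
  have hk := key x y hxy hN (col b₁) (col b₂) (col b₃) (col t₁) (col t₂) (col t₃)
  rw [← sum3 (fun c0 c1 c2 => w x y (col b₁) (col b₂) c0 c1 * w x y c1 (col b₃) c2 (col t₃) *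
      w x y c0 c2 (col t₁) (col t₂)),
    ← sum3 (fun c0 c1 c2 => w x y (col b₂) (col b₃) c0 c1 * w x y (col b₁) c0 (col t₁) c2 *
      w x y c2 c1 (col t₂) (col t₃))] at hk
  set K : ℂ := (-A⁻¹ ^ 3) ^ sg ov f₁ f₂ * (-A⁻¹ ^ 3) ^ sg ov f₁ f₃ * (-A⁻¹ ^ 3) ^ sg ov f₂ f₃
    with hK
  have h1 : ∀ j : Fin 3 → Fin N, VV A ⟨[], [cross ov (.inl b₁) (.inl b₂) (.inr 0) (.inr 1) f₁ f₂,
           cross ov (.inr 1) (.inl b₃) (.inr 2) (.inl t₃) f₁ f₃,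
           cross ov (.inr 0) (.inr 2) (.inl t₁) (.inl t₂) f₂ f₃]⟩ (Sum.elim col j) =
      K * (w x y (col b₁) (col b₂) (j 0) (j 1) * w x y (j 1) (col b₃) (j 2) (col t₃) *
      w x y (j 0) (j 2) (col t₁) (col t₂)) := by
    intro j
    simp only [VV, List.map_nil, List.prod_nil, List.map_cons, List.prod_cons, nW, sign_cross,
      crossW_cross, Sum.elim_inl, Sum.elim_inr, hK, ← hx, ← hy]
    ring
  have h2 : ∀ j : Fin 3 → Fin N, VV A ⟨[], [cross ov (.inl b₂) (.inl b₃) (.inr 0) (.inr 1) f₂ f₃,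
           cross ov (.inl b₁) (.inr 0) (.inl t₁) (.inr 2) f₁ f₃,
           cross ov (.inr 2) (.inr 1) (.inl t₂) (.inl t₃) f₁ f₂]⟩ (Sum.elim col j) =
      K * (w x y (col b₂) (col b₃) (j 0) (j 1) * w x y (col b₁) (j 0) (col t₁) (j 2) *
      w x y (j 2) (j 1) (col t₂) (col t₃)) := by
    intro j
    simp only [VV, List.map_nil, List.prod_nil, List.map_cons, List.prod_cons, nW, sign_cross,
      crossW_cross, Sum.elim_inl, Sum.elim_inr, hK, ← hx, ← hy]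
    ring
  simp only [h1, h2, ← Finset.mul_sum]
  rw [hk]

end

end Pool.Agent.H832R3.VJ
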