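import Pool.Agent.H832R3.VJ.V1
import Pool.Agent.H832R3.VJ.V2
import Pool.Agent.H832R3.VJ.V3
import Pool.Agent.H832R3.VJ.V3b
import Pool.Agent.H832R3.VJ.V4

set_option autoImplicit false

/-! Invariance of the normalised bracket. -/

namespace Pool.Agent.H832R3.VJ

open Finset LaurentPolynomial Pool.Agent.H891R2.Jones Pool.Agent.H891R2.MT

namespace V5

theorem fPoly_of_sum {P Q : Type} [Fintype P] [DecidableEq P] [Nonempty P] [Fintype Q]
    [DecidableEq Q] [Nonempty Q] (D : Diagram P) (D' : Diagram Q)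
    (h : ∀ N, 3 ≤ N → ∑ col : P → Fin N, VV (Ar N) D col = ∑ col : Q → Fin N, VV (Ar N) D' col) :
    D.fPoly = D'.fPoly := by
  apply T6.eq_of_ev
  intro N hN
  have hN0 : (N : ℂ) ≠ 0 := by
    exact_mod_cast (by omega : N ≠ 0)
  apply mul_left_cancel₀ hN0
  rw [ev_fPoly, ev_fPoly]
  exact h N hN

theorem d_eq (N : ℕ) (hN : 3 ≤ N) : (N : ℂ) = -Ar N ^ 2 - (Ar N)⁻¹ ^ 2 := Ar_d N hN

end V5

theorem fPoly_move (X Y : Dia) (hX : X.IsLink) (hY : Y.IsLink) (h : Move X Y) :
    X.D.fPoly = Y.D.fPoly := by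
  classical
  have nX := hX.1
  have nY := hY.1
  clear hX hY
  cases h with
  | @relabel P Q hP hQ e D =>
    have : Fintype P := Fintype.ofFinite P
    have : Fintype Q := Fintype.ofFinite Q
    have : Nonempty P := nX
    have : Nonempty Q := nY
    exact V5.fPoly_of_sum _ _ fun N hN => relabel_inv _ N e D
  | @order P hP D D' h h' =>
    have : Fintype P := Fintype.ofFinite P
    have : Nonempty P := nX
    exact V5.fPoly_of_sum _ _ fun N hN => Finset.sum_congr rfl fun col _ =>
      order_inv _ N D D' h h' col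
  | @turn P hP D x =>
    have : Fintype P := Fintype.ofFinite P
    have : Nonempty P := nX
    exact V5.fPoly_of_sum _ _ fun N hN => Finset.sum_congr rfl fun col _ =>
      turn_inv _ N D x col
  | @cutArc P hP hQ D p q =>
    have : Fintype P := Fintype.ofFinite P
    have : Nonempty P := nX
    exact V5.fPoly_of_sum _ _ fun N hN => local_move' _ N D _ _ _ _ fun col =>
      cutArc_loc _ N col p q
  | @cutUnder P hP hQ D a b c d f g =>
    have : Fintype P := Fintype.ofFinite P
    have : Nonempty P := nX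
    exact V5.fPoly_of_sum _ _ fun N hN => local_move' _ N D _ _ _ _ fun col =>
      cutUnder_loc _ N col a b c d f g
  | @cutOver P hP hQ D a b c d f g =>
    have : Fintype P := Fintype.ofFinite P
    have : Nonempty P := nX
    exact V5.fPoly_of_sum _ _ fun N hN => local_move' _ N D _ _ _ _ fun col =>
      cutOver_loc _ N col a b c d f g
  | @first P hP hQ D p q k =>
    have : Fintype P := Fintype.ofFinite P
    have : Nonempty P := nX
    exact V5.fPoly_of_sum _ _ fun N hN => local_move' _ N D _ _ _ _ fun col =>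
      first_loc _ N col (Ar_ne N hN) (V5.d_eq N hN) p q k
  | @second P hP hQ D ov f g x₀ x₁ y₀ y₁ =>
    have : Fintype P := Fintype.ofFinite P
    have : Nonempty P := nX
    exact V5.fPoly_of_sum _ _ fun N hN => local_move' _ N D _ _ _ _ fun col =>
      second_loc _ N col (Ar_ne N hN) (V5.d_eq N hN) ov f g x₀ x₁ y₀ y₁
  | @third P hP hQ D ov f₁ f₂ f₃ b₁ b₂ b₃ t₁ t₂ t₃ =>
    have : Fintype P := Fintype.ofFinite P
    have : Nonempty (P ⊕ Fin 3) := nX
    exact V5.fPoly_of_sum _ _ fun N hN => local_move _ N D _ _ _ _ fun col =>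
      third_loc _ N col (Ar_ne N hN) (V5.d_eq N hN) ov f₁ f₂ f₃ b₁ b₂ b₃ t₁ t₂ t₃

end Pool.Agent.H832R3.VJ
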