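import Pool.Agent.H832R3.VJ.Defs2

set_option autoImplicit false

/-! The skein relation of the bracket. -/

namespace Pool.Agent.H832R3.VJ

open Finset LaurentPolynomial Pool.Agent.H891R2.Jones Pool.Agent.H891R2.MT

namespace V6

theorem joined_true {P : Type} (arcs : List (P × P)) (x : Crossing P) (cr : List (Crossing P))
    (s : Fin cr.length → Bool) (p q : P) :
    (⟨arcs, x :: cr⟩ : Diagram P).Joined (Fin.cons true s : Fin (cr.length + 1) → Bool) p q ↔
      (⟨(x.a, x.b) :: (x.c, x.d) :: arcs, cr⟩ : Diagram P).Joined s p q := by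
  have h : (∃ i : Fin (cr.length + 1), 
      if (Fin.cons true s : Fin (cr.length + 1) → Bool) i then
        (p = ((x :: cr)[i]).a ∧ q = ((x :: cr)[i]).b) ∨ (p = ((x :: cr)[i]).c ∧ q = ((x :: cr)[i]).d)
      else (p = ((x :: cr)[i]).b ∧ q = ((x :: cr)[i]).c) ∨
        (p = ((x :: cr)[i]).d ∧ q = ((x :: cr)[i]).a)) ↔
      ((p = x.a ∧ q = x.b) ∨ (p = x.c ∧ q = x.d)) ∨ ∃ i : Fin cr.length, 
      if s i then
        (p = (cr[i]).a ∧ q = (cr[i]).b) ∨ (p = (cr[i]).c ∧ q = (cr[i]).d)
      else (p = (cr[i]).b ∧ q = (cr[i]).c) ∨ (p = (cr[i]).d ∧ q = (cr[i]).a) := by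
    rw [Fin.exists_fin_succ]
    rfl
  unfold Diagram.Joined
  refine (or_congr Iff.rfl h).trans ?_
  simp only [List.mem_cons, Prod.mk.injEq]
  tauto

theorem joined_false {P : Type} (arcs : List (P × P)) (x : Crossing P) (cr : List (Crossing P))
    (s : Fin cr.length → Bool) (p q : P) :
    (⟨arcs, x :: cr⟩ : Diagram P).Joined (Fin.cons false s : Fin (cr.length + 1) → Bool) p q ↔
      (⟨(x.b, x.c) :: (x.d, x.a) :: arcs, cr⟩ : Diagram P).Joined s p q := by
  have h : (∃ i : Fin (cr.length + 1), 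
      if (Fin.cons false s : Fin (cr.length + 1) → Bool) i then
        (p = ((x :: cr)[i]).a ∧ q = ((x :: cr)[i]).b) ∨ (p = ((x :: cr)[i]).c ∧ q = ((x :: cr)[i]).d)
      else (p = ((x :: cr)[i]).b ∧ q = ((x :: cr)[i]).c) ∨
        (p = ((x :: cr)[i]).d ∧ q = ((x :: cr)[i]).a)) ↔
      ((p = x.b ∧ q = x.c) ∨ (p = x.d ∧ q = x.a)) ∨ ∃ i : Fin cr.length, 
      if s i then
        (p = (cr[i]).a ∧ q = (cr[i]).b) ∨ (p = (cr[i]).c ∧ q = (cr[i]).d)
      else (p = (cr[i]).b ∧ q = (cr[i]).c) ∨ (p = (cr[i]).d ∧ q = (cr[i]).a) := by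
    rw [Fin.exists_fin_succ]
    refine or_congr ?_ Iff.rfl
    simp
  unfold Diagram.Joined
  refine (or_congr Iff.rfl h).trans ?_
  simp only [List.mem_cons, Prod.mk.injEq]
  tauto

theorem weight_cons {n : ℕ} (b : Bool) (s : Fin n → Bool) :
    Diagram.weight (Fin.cons b s : Fin (n + 1) → Bool) = (if b then 1 else -1) + Diagram.weight s := by
  unfold Diagram.weight
  rw [Fin.sum_univ_succ]
  simp

theorem card_quot {P : Type} (r r' : P → P → Prop) (h1 : ∀ p q, r p q → r' p q ∨ r' q p)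
    (h2 : ∀ p q, r' p q → r p q ∨ r q p) : Nat.card (Quot r) = Nat.card (Quot r') := by
  refine Nat.card_congr
    { toFun := Quot.lift (Quot.mk r') (fun a b h => (h1 a b h).elim (fun h => Quot.sound h)
        (fun h => (Quot.sound h).symm))
      invFun := Quot.lift (Quot.mk r) (fun a b h => (h2 a b h).elim (fun h => Quot.sound h)
        (fun h => (Quot.sound h).symm))
      left_inv := ?_
      right_inv := ?_ }
  · intro x
    induction x using Quot.ind
    rfl
  · intro x
    induction x using Quot.ind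
    rfl

theorem bracket_arcs {P : Type} (arcs arcs' : List (P × P)) (cr : List (Crossing P))
    (h : ∀ p q, ((p, q) ∈ arcs ∨ (q, p) ∈ arcs) ↔ ((p, q) ∈ arcs' ∨ (q, p) ∈ arcs')) :
    (⟨arcs, cr⟩ : Diagram P).bracket = (⟨arcs', cr⟩ : Diagram P).bracket := by
  have key : ∀ s : Fin cr.length → Bool,
      (⟨arcs, cr⟩ : Diagram P).loops s = (⟨arcs', cr⟩ : Diagram P).loops s := by
    intro s
    unfold Diagram.loops
    apply card_quot
    · rintro p q (h1 | h1)
      · rcases (h p q).1 (Or.inl h1) with h2 | h2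
        · exact Or.inl (Or.inl h2)
        · exact Or.inr (Or.inl h2)
      · exact Or.inl (Or.inr h1)
    · rintro p q (h1 | h1)
      · rcases (h p q).2 (Or.inl h1) with h2 | h2
        · exact Or.inl (Or.inl h2)
        · exact Or.inr (Or.inl h2)
      · exact Or.inl (Or.inr h1)
  unfold Diagram.bracket
  refine Finset.sum_congr rfl ?_
  intro s _
  exact congrArg (fun n : ℕ => T (Diagram.weight s) * (-T 2 - T (-2)) ^ (n - 1)) (key s)

end V6

theorem bracket_cons {P : Type} (arcs : List (P × P)) (x : Crossing P) (cr : List (Crossing P)) :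
    (⟨arcs, x :: cr⟩ : Diagram P).bracket =
      T 1 * (⟨(x.a, x.b) :: (x.c, x.d) :: arcs, cr⟩ : Diagram P).bracket +
      T (-1) * (⟨(x.b, x.c) :: (x.d, x.a) :: arcs, cr⟩ : Diagram P).bracket := by
  have h1 : (⟨arcs, x :: cr⟩ : Diagram P).bracket = ∑ s : Fin (cr.length + 1) → Bool,
      T (Diagram.weight s) * (-T 2 - T (-2)) ^ ((⟨arcs, x :: cr⟩ : Diagram P).loops s - 1) := rfl
  have h2 : (⟨(x.a, x.b) :: (x.c, x.d) :: arcs, cr⟩ : Diagram P).bracket =
      ∑ s : Fin cr.length → Bool, T (Diagram.weight s) * (-T 2 - T (-2)) ^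
        ((⟨(x.a, x.b) :: (x.c, x.d) :: arcs, cr⟩ : Diagram P).loops s - 1) := rfl
  have h3 : (⟨(x.b, x.c) :: (x.d, x.a) :: arcs, cr⟩ : Diagram P).bracket =
      ∑ s : Fin cr.length → Bool, T (Diagram.weight s) * (-T 2 - T (-2)) ^
        ((⟨(x.b, x.c) :: (x.d, x.a) :: arcs, cr⟩ : Diagram P).loops s - 1) := rfl
  rw [h1, h2, h3, ← (Fin.consEquiv (fun _ : Fin (cr.length + 1) => Bool)).sum_comp,
    Fintype.sum_prod_type, Fintype.sum_bool, Finset.mul_sum, Finset.mul_sum]
  congr 1
  · refine Finset.sum_congr rfl ?_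
    intro s _
    have e : (Fin.consEquiv (fun _ : Fin (cr.length + 1) => Bool)) (true, s) = 
        (Fin.cons true s : Fin (cr.length + 1) → Bool) := rfl
    have h4 : (⟨arcs, x :: cr⟩ : Diagram P).loops (Fin.cons true s : Fin (cr.length + 1) → Bool) =
        (⟨(x.a, x.b) :: (x.c, x.d) :: arcs, cr⟩ : Diagram P).loops s :=
      congrArg (fun r => Nat.card (Quot r))
        (funext fun p => funext fun q => propext (V6.joined_true arcs x cr s p q))
    rw [e, h4, V6.weight_cons, if_pos rfl, T_add, mul_assoc]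
  · refine Finset.sum_congr rfl ?_
    intro s _
    have e : (Fin.consEquiv (fun _ : Fin (cr.length + 1) => Bool)) (false, s) = 
        (Fin.cons false s : Fin (cr.length + 1) → Bool) := rfl
    have h4 : (⟨arcs, x :: cr⟩ : Diagram P).loops (Fin.cons false s : Fin (cr.length + 1) → Bool) =
        (⟨(x.b, x.c) :: (x.d, x.a) :: arcs, cr⟩ : Diagram P).loops s :=
      congrArg (fun r => Nat.card (Quot r))
        (funext fun p => funext fun q => propext (V6.joined_false arcs x cr s p q))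
    rw [e, h4, V6.weight_cons, if_neg (by simp), T_add, mul_assoc]

theorem bracket_congr {P : Type} (arcs arcs' : List (P × P)) (cr cr' : List (Crossing P))
    (h : ∀ p q, ((p, q) ∈ arcs ∨ (q, p) ∈ arcs) ↔ ((p, q) ∈ arcs' ∨ (q, p) ∈ arcs'))
    (h' : cr.Perm cr') :
    (⟨arcs, cr⟩ : Diagram P).bracket = (⟨arcs', cr'⟩ : Diagram P).bracket := by
  induction h' generalizing arcs arcs' with
  | nil => exact V6.bracket_arcs _ _ _ h
  | cons x _ ih =>
    rw [bracket_cons, bracket_cons]
    congr 2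
    · apply ih
      intro p q
      have h1 := h p q
      simp only [List.mem_cons]
      tauto
    · apply ih
      intro p q
      have h1 := h p q
      simp only [List.mem_cons]
      tauto
  | swap x y l =>
    rw [bracket_cons arcs y, bracket_cons _ x, bracket_cons _ x, bracket_cons arcs' x,
      bracket_cons _ y, bracket_cons _ y]
    have k : ∀ a1 a2 a3 a4 : P × P, (⟨a1 :: a2 :: a3 :: a4 :: arcs, l⟩ : Diagram P).bracket =
        (⟨a3 :: a4 :: a1 :: a2 :: arcs', l⟩ : Diagram P).bracket := by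
      intro a1 a2 a3 a4
      apply V6.bracket_arcs
      intro p q
      have h1 := h p q
      simp only [List.mem_cons]
      tauto
    rw [k, k, k, k]
    ring
  | trans _ _ ih1 ih2 =>
    rw [ih1 arcs arcs (fun _ _ => Iff.rfl), ih2 arcs arcs' h]

end Pool.Agent.H832R3.VJ
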