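import Pool.Agent.H832R3.VJ.Defs2

set_option autoImplicit false

/-! Sharp Laurent polynomials. -/

namespace Pool.Agent.H832R3.VJ

open Finset LaurentPolynomial Pool.Agent.H891R2.Jones Pool.Agent.H891R2.MT

theorem V9_coeff_top {f g : ℤ[T;T⁻¹]} {a b : ℤ}
    (hf : ∀ j, f.coeff j ≠ 0 → j ≤ a) (hg : ∀ j, g.coeff j ≠ 0 → j ≤ b) :
    (f * g).coeff (a + b) = f.coeff a * g.coeff b := by
  apply AddMonoidAlgebra.coeff_mul_add_of_uniqueAdd
  intro x y hx hy hxy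
  have h1 := hf x (Finsupp.mem_support_iff.1 hx)
  have h2 := hg y (Finsupp.mem_support_iff.1 hy)
  exact ⟨by omega, by omega⟩

theorem V9_coeff_bot {f g : ℤ[T;T⁻¹]} {a b : ℤ}
    (hf : ∀ j, f.coeff j ≠ 0 → a ≤ j) (hg : ∀ j, g.coeff j ≠ 0 → b ≤ j) :
    (f * g).coeff (a + b) = f.coeff a * g.coeff b := by
  apply AddMonoidAlgebra.coeff_mul_add_of_uniqueAdd
  intro x y hx hy hxy
  have h1 := hf x (Finsupp.mem_support_iff.1 hx)
  have h2 := hg y (Finsupp.mem_support_iff.1 hy)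
  exact ⟨by omega, by omega⟩

theorem Sharp.mul {f g : ℤ[T;T⁻¹]} {c d c' d' : ℤ} (hf : Sharp f c d) (hg : Sharp g c' d') :
    Sharp (f * g) (c + c') (d + d') := by
  obtain ⟨f1, f2, f3⟩ := hf
  obtain ⟨g1, g2, g3⟩ := hg
  refine ⟨?_, ?_, ?_⟩
  · have h : c + c' - (d + d') = (c - d) + (c' - d') := by ring
    rw [h, V9_coeff_bot (fun j hj => (f3 j hj).1) (fun j hj => (g3 j hj).1)]
    exact mul_ne_zero f1 g1
  · have h : c + c' + (d + d') = (c + d) + (c' + d') := by ring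
    rw [h, V9_coeff_top (fun j hj => (f3 j hj).2) (fun j hj => (g3 j hj).2)]
    exact mul_ne_zero f2 g2
  · exact (f3.mul g3).mono (by linarith) (by linarith)

theorem V9_sharp_T (n : ℤ) : Sharp (T n : ℤ[T;T⁻¹]) n 0 := by
  refine ⟨?_, ?_, ?_⟩
  · rw [sub_zero, T_apply, if_pos rfl]
    exact one_ne_zero
  · rw [add_zero, T_apply, if_pos rfl]
    exact one_ne_zero
  · rw [sub_zero, add_zero]
    exact T4b.SIn.T n

theorem V9_sharp_one : Sharp (1 : ℤ[T;T⁻¹]) 0 0 := by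
  have := V9_sharp_T 0
  rwa [T_zero] at this

theorem V9_sharp_neg {f : ℤ[T;T⁻¹]} {c d : ℤ} (hf : Sharp f c d) : Sharp (-f) c d := by
  obtain ⟨f1, f2, f3⟩ := hf
  refine ⟨?_, ?_, f3.neg⟩
  · rw [AddMonoidAlgebra.coeff_neg, Finsupp.neg_apply]
    exact neg_ne_zero.2 f1
  · rw [AddMonoidAlgebra.coeff_neg, Finsupp.neg_apply]
    exact neg_ne_zero.2 f2

theorem V9_sharp_sgn (a : ℕ) : Sharp ((-1 : ℤ[T;T⁻¹]) ^ a) 0 0 := by
  rcases neg_one_pow_eq_or (ℤ[T;T⁻¹]) a with h | h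
  · rw [h]; exact V9_sharp_one
  · rw [h]; exact V9_sharp_neg V9_sharp_one

theorem V9_sharp_d (m : ℕ) : Sharp ((-T 2 - T (-2) : ℤ[T;T⁻¹]) ^ m) 0 (2 * m) := by
  refine ⟨?_, ?_, ?_⟩
  · rw [zero_sub]
    exact T8.coeff_d_pow' m
  · rw [zero_add]
    exact T8.coeff_d_pow m
  · exact (T4b.SIn_d.pow m).mono (by linarith) (by linarith)

theorem V9_sharp_aeval (p : Polynomial ℤ) (hp : p.Monic) :
    Sharp (Polynomial.aeval ((-T 2 - T (-2)) ^ 2 : ℤ[T;T⁻¹]) p) 0 (4 * p.natDegree) := by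
  have h0 : p = Polynomial.X ^ p.natDegree + p.eraseLead := by
    have := p.eraseLead_add_monomial_natDegree_leadingCoeff
    rw [hp.leadingCoeff, ← Polynomial.X_pow_eq_monomial] at this
    rw [add_comm]
    exact this.symm
  set D := p.natDegree with hD
  have h1 : Polynomial.aeval ((-T 2 - T (-2)) ^ 2 : ℤ[T;T⁻¹]) p =
      (-T 2 - T (-2)) ^ (2 * D) +
        Polynomial.aeval ((-T 2 - T (-2)) ^ 2 : ℤ[T;T⁻¹]) p.eraseLead := by
    conv_lhs => rw [h0]
    rw [map_add, map_pow, Polynomial.aeval_X, ← pow_mul]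
  have h2 := V9_sharp_d (2 * D)
  obtain ⟨k1, k2, k3⟩ := h2
  have hsup := T4b.SIn_aeval (D := D) p le_rfl
  refine ⟨?_, ?_, hsup.mono (by linarith) (by linarith)⟩
  · rw [h1, AddMonoidAlgebra.coeff_add, Finsupp.add_apply]
    have h3 : (Polynomial.aeval ((-T 2 - T (-2)) ^ 2 : ℤ[T;T⁻¹]) p.eraseLead).coeff
        (0 - 4 * (D : ℤ)) = 0 := by
      by_cases hE : p.eraseLead = 0
      · rw [hE, map_zero]; rfl
      · by_contra hne
        have h4 := Polynomial.eraseLead_natDegree_lt_or_eraseLead_eq_zero p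
        have h5 : p.eraseLead.natDegree < D := h4.resolve_right hE
        have h6 := (T4b.SIn_aeval (D := D - 1) p.eraseLead (by omega) _ hne).1
        have h7 : ((D - 1 : ℕ) : ℤ) = (D : ℤ) - 1 := by
          rw [Nat.cast_sub (by omega)]; simp
        rw [h7] at h6
        linarith
    rw [h3, add_zero]
    have h8 : (0 - 4 * (D : ℤ)) = 0 - 2 * ((2 * D : ℕ) : ℤ) := by push_cast; ring
    rw [h8]
    exact k1
  · rw [h1, AddMonoidAlgebra.coeff_add, Finsupp.add_apply]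
    have h3 : (Polynomial.aeval ((-T 2 - T (-2)) ^ 2 : ℤ[T;T⁻¹]) p.eraseLead).coeff
        (0 + 4 * (D : ℤ)) = 0 := by
      by_cases hE : p.eraseLead = 0
      · rw [hE, map_zero]; rfl
      · by_contra hne
        have h4 := Polynomial.eraseLead_natDegree_lt_or_eraseLead_eq_zero p
        have h5 : p.eraseLead.natDegree < D := h4.resolve_right hE
        have h6 := (T4b.SIn_aeval (D := D - 1) p.eraseLead (by omega) _ hne).2
        have h7 : ((D - 1 : ℕ) : ℤ) = (D : ℤ) - 1 := by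
          rw [Nat.cast_sub (by omega)]; simp
        rw [h7] at h6
        linarith
    rw [h3, add_zero]
    have h8 : (0 + 4 * (D : ℤ)) = 0 + 2 * ((2 * D : ℕ) : ℤ) := by push_cast; ring
    rw [h8]
    exact k2

theorem sharp_term (p : Polynomial ℤ) (hp : p.Monic) (a : ℤ) (m : ℕ) :
    Sharp ((((-1 : ℤ[T;T⁻¹]) ^ a.natAbs * T (4 * a)) *
      Polynomial.aeval ((-T 2 - T (-2)) ^ 2 : ℤ[T;T⁻¹]) p) * (-T 2 - T (-2)) ^ m)
      (4 * a) (4 * p.natDegree + 2 * m) := by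
  have h := (((V9_sharp_sgn a.natAbs).mul (V9_sharp_T (4 * a))).mul (V9_sharp_aeval p hp)).mul
    (V9_sharp_d m)
  have e1 : 0 + 4 * a + 0 + 0 = 4 * a := by ring
  have e2 : (0 : ℤ) + 0 + 4 * (p.natDegree : ℤ) + 2 * (m : ℤ) = 4 * p.natDegree + 2 * m := by ring
  rw [e1, e2] at h
  exact h

end Pool.Agent.H832R3.VJ
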